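import Pool.Agent.Helper46.A.G1
import Pool.Agent.Helper46.A.B1

set_option autoImplicit false

namespace Pool.Agent.W312.KC

open Finset Pool.Agent.Helper46.A

/-- two sets in a stable family that are adjacent: impossible -/
theorem adj_form {n : ℕ} {X Y : Finset (Fin n)} (h : Adj X Y) :
    ∃ f ∈ X, ∃ g, g ∉ X ∧ f ∉ Y ∧ g ∈ Y ∧ Y = insert g (X.erase f) := by
  classical
  obtain ⟨h1, h2⟩ := h
  obtain ⟨f, hf⟩ := Finset.card_eq_one.1 h1
  obtain ⟨g, hg⟩ := Finset.card_eq_one.1 h2
  have hfX : f ∈ X ∧ f ∉ Y := by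
    have : f ∈ X \ Y := by rw [hf]; simp
    simpa using this
  have hgY : g ∈ Y ∧ g ∉ X := by
    have : g ∈ Y \ X := by rw [hg]; simp
    simpa using this
  refine ⟨f, hfX.1, g, hgY.2, hfX.2, hgY.1, ?_⟩
  ext x
  rw [mem_insert, mem_erase]
  constructor
  · intro hx
    by_cases hxX : x ∈ X
    · right
      refine ⟨?_, hxX⟩
      rintro rfl
      exact hfX.2 hx
    · left
      have : x ∈ Y \ X := mem_sdiff.2 ⟨hx, hxX⟩
      rw [hg] at this
      simpa using this
  · rintro (rfl | ⟨hxf, hxX⟩)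
    · exact hgY.1
    · by_contra hxY
      have : x ∈ X \ Y := mem_sdiff.2 ⟨hxX, hxY⟩
      rw [hf] at this
      exact hxf (by simpa using this)

open Classical in
/-- nonbases outside `sg` -/
noncomputable def FF {n : ℕ} (l r : ℕ) (B : Fam n) : Fam n :=
  (powersetCard r (univ : Finset (Fin n))).filter (fun X => X ∉ B ∧ X ∉ sg l r B)

theorem mem_FF {n l r : ℕ} {B : Fam n} {X : Finset (Fin n)} :
    X ∈ FF l r B ↔ X.card = r ∧ X ∉ B ∧ X ∉ sg l r B := by
  classical
  unfold FF
  rw [mem_filter, mem_powersetCard]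
  simp

theorem hQ' {n r l : ℕ} : ∀ B ∈ BF n r, ∀ X : Finset (Fin n), X.card = r →
    Q (info l r B) X → X ∉ B :=
  fun B hB X hX h => C1.Q_not_mem (mem_BF.1 hB) hX h

theorem htie' {n r l : ℕ} : ∀ B ∈ BF n r, ∀ X Y : Finset (Fin n), tie (info l r B) X Y →
    (X ∈ B ↔ Y ∈ B) :=
  fun B hB X Y h => C2.tie_mem (mem_BF.1 hB) h

theorem hadj' {n r l : ℕ} : ∀ B ∈ BF n r, ∀ X Y : Finset (Fin n), X.card = r → Y.card = r →
    X ∉ B → Y ∉ B → ¬ Q (info l r B) X → ¬ Q (info l r B) Y → Adj X Y → tie (info l r B) X Y :=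
  fun B hB X Y h1 h2 h3 h4 h5 h6 h7 => adj_tie (mem_BF.1 hB) h1 h2 h3 h4 h5 h6 h7

theorem sg_sub {n l r : ℕ} {B : Fam n} {X : Finset (Fin n)} (h : X ∈ sg l r B) :
    X ∈ UU l r B ∧ ∀ Y, Rel (info l r B) X Y → Y = X := by
  classical
  unfold sg at h
  exact Finset.mem_filter.1 h

theorem nt_sub {n l r : ℕ} {B : Fam n} {X : Finset (Fin n)} (h : X ∈ nt l r B) :
    X ∈ UU l r B ∧ X = rep (info l r B) X ∧ ∃ Y, Y ≠ X ∧ Rel (info l r B) X Y := by
  classical
  unfold nt at h
  exact Finset.mem_filter.1 h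

/-- `FF` depends only on the information and on `nt` -/
theorem mem_FF_iff {n l r : ℕ} {B : Fam n} (hB : B ∈ BF n r) {X : Finset (Fin n)} :
    X ∈ FF l r B ↔ X.card = r ∧ (Kn (info l r B) X ∨ rep (info l r B) X ∈ nt l r B) := by
  have hm := D4.F3_mem_B (l := l) (mem_BF.1 hB) (hQ' B hB) (htie' B hB)
  rw [mem_FF]
  constructor
  · rintro ⟨h1, h2, h3⟩
    refine ⟨h1, ?_⟩
    by_cases hk : Kn (info l r B) X
    · exact Or.inl hk
    · right
      have hU : X ∈ UU l r B := by
        by_contra hU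
        exact h2 ((hm X).2 ⟨h1, hk, hU⟩)
      rcases (D4.F3_mem_UU_iff (htie' B hB) X).1 hU with h | h
      · exact absurd h h3
      · exact h
  · rintro ⟨h1, h2⟩
    rcases h2 with h2 | h2
    · refine ⟨h1, fun h => ((hm X).1 h).2.1 h2, fun h => ?_⟩
      exact (D4.F3_mem_UU.1 (sg_sub h).1).2.2 h2
    · have hU : X ∈ UU l r B := (D4.F3_mem_UU_iff (htie' B hB) X).2 (Or.inr h2)
      refine ⟨h1, (D4.F3_mem_UU.1 hU).2.1, fun h => ?_⟩
      obtain ⟨_, hs⟩ := sg_sub h
      have hr := hs _ (D4.F3_rel_symm (D4.F3_rep_rel (info l r B) X))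
      rw [hr] at h2
      obtain ⟨_, _, Y, hne, hY⟩ := nt_sub h2
      exact hne (hs Y hY)

theorem sg_St {n l r : ℕ} {B : Fam n} (hB : B ∈ BF n r) :
    sg l r B ∈ St (powersetCard r (univ : Finset (Fin n))) := by
  unfold St
  rw [mem_filter, mem_powerset]
  constructor
  · intro X hX
    rw [mem_powersetCard]
    exact ⟨subset_univ _, (D4.F3_mem_UU.1 (sg_sub hX).1).1⟩
  · intro X hX Y hY hA
    obtain ⟨x1, x2⟩ := sg_sub hX
    obtain ⟨y1, y2⟩ := sg_sub hY
    rw [D4.F3_mem_UU] at x1 y1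
    have hnQ : ∀ Z, ¬ Kn (info l r B) Z → ¬ Q (info l r B) Z := fun Z hZ hq =>
      hZ ⟨Z, hq, Relation.EqvGen.refl Z⟩
    have ht := hadj' B hB X Y x1.1 y1.1 x1.2.1 y1.2.1 (hnQ X x1.2.2) (hnQ Y y1.2.2) hA
    have hYX : Y = X := x2 Y (Relation.EqvGen.rel _ _ ht)
    rw [hYX] at hA
    have := hA.1
    rw [Finset.sdiff_self, Finset.card_empty] at this
    exact zero_ne_one this

theorem adj_symm {n : ℕ} {X Y : Finset (Fin n)} (h : Adj X Y) : Adj Y X := ⟨h.2, h.1⟩

/-- a member of `sg` is not adjacent to a nonbasis, if there are no loops and no coloops -/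
theorem sg_nonadj {n l r : ℕ} (hl : 1 ≤ l) {B : Fam n} (hB : B ∈ BF n r)
    (h1 : ∀ x, indep B {x}) (h2 : ∀ x, ∃ Y ∈ B, x ∉ Y) {X Y : Finset (Fin n)}
    (hX : X ∈ sg l r B) (hY : Y ∉ B) : ¬ Adj X Y := by
  intro hA
  have key := D1.sg_relax (X := X) hl (mem_BF.1 hB) (hQ' B hB)
    (fun X hX hXB hQ f hf g hg hY => C3.explained (mem_BF.1 hB) hX hXB hQ hf hg hY) hX
  obtain ⟨f, hf, g, hg, -, -, hYe⟩ := adj_form hA
  rcases key.2.2.2.2 f hf g hg with h | h | h
  · rw [← hYe] at h
    exact hY h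
  · exact h (h1 g)
  · obtain ⟨Z, hZ, hfZ⟩ := h2 f
    exact hfZ (h Z hZ)

theorem union_St {n l r : ℕ} (hl : 1 ≤ l) {B : Fam n} (hB : B ∈ BF n r)
    (h1 : ∀ x, indep B {x}) (h2 : ∀ x, ∃ Y ∈ B, x ∉ Y) {R : Fam n} (hR : R ∈ St (FF l r B)) :
    sg l r B ∪ R ∈ St (powersetCard r (univ : Finset (Fin n))) := by
  have hsg := sg_St (l := l) hB
  unfold St at hsg hR ⊢
  rw [mem_filter, mem_powerset] at hsg hR ⊢
  constructor
  · intro X hX
    rcases mem_union.1 hX with h | h
    · exact hsg.1 h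
    · have := mem_FF.1 (hR.1 h)
      rw [mem_powersetCard]
      exact ⟨subset_univ _, this.1⟩
  · intro X hX Y hY hA
    rcases mem_union.1 hX with hX | hX <;> rcases mem_union.1 hY with hY | hY
    · exact hsg.2 X hX Y hY hA
    · exact sg_nonadj hl hB h1 h2 hX (mem_FF.1 (hR.1 hY)).2.1 hA
    · exact sg_nonadj hl hB h1 h2 hY (mem_FF.1 (hR.1 hX)).2.1 (adj_symm hA)
    · exact hR.2 X hX Y hY hA

/-- the injection -/
theorem sum_St {n l r K : ℕ} (hl : 1 ≤ l) (A : Finset (Fam n)) (hA : A ⊆ BF n r)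
    (h1 : ∀ B ∈ A, ∀ x, indep B {x}) (h2 : ∀ B ∈ A, ∀ x, ∃ Y ∈ B, x ∉ Y)
    (hK : ∀ B ∈ A, (nt l r B).card ≤ K) :
    ∑ B ∈ A, (St (FF l r B)).card ≤
      ((BF n r).image (info l r)).card * SB n K *
        (St (powersetCard r (univ : Finset (Fin n)))).card := by
  classical
  have e1 : ∑ B ∈ A, (St (FF l r B)).card = (A.sigma (fun B => St (FF l r B))).card := by
    rw [card_sigma]
  rw [e1]
  let T : Finset (Info n × Fam n × Fam n) :=
    ((BF n r).image (info l r)) ×ˢ ((univ : Finset (Fam n)).filter (fun S => S.card ≤ K)) ×ˢ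
      (St (powersetCard r (univ : Finset (Fin n))))
  have hT : T.card ≤ ((BF n r).image (info l r)).card * SB n K *
        (St (powersetCard r (univ : Finset (Fin n)))).card := by
    simp only [T, Finset.card_product]
    calc ((BF n r).image (info l r)).card *
        (((univ : Finset (Fam n)).filter (fun S => S.card ≤ K)).card *
          (St (powersetCard r (univ : Finset (Fin n)))).card)
        ≤ ((BF n r).image (info l r)).card * (SB n K *
          (St (powersetCard r (univ : Finset (Fin n)))).card) :=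
          Nat.mul_le_mul_left _ (Nat.mul_le_mul_right _ D4.F3_SB)
      _ = _ := by ring
  refine le_trans ?_ hT
  refine Finset.card_le_card_of_injOn
    (fun p => (info l r p.1, nt l r p.1, sg l r p.1 ∪ p.2)) ?_ ?_
  · rintro ⟨B, R⟩ hp
    have hp' : B ∈ A ∧ R ∈ St (FF l r B) := Finset.mem_sigma.1 hp
    have hB := hA hp'.1
    simp only [T, Finset.coe_product, Set.mem_prod, Finset.mem_coe, Finset.mem_filter,
      Finset.mem_univ, true_and]
    exact ⟨Finset.mem_image_of_mem _ hB, hK B hp'.1,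
      union_St hl hB (h1 B hp'.1) (h2 B hp'.1) hp'.2⟩
  · rintro ⟨B, R⟩ hp ⟨B', R'⟩ hp' heq
    have hp1 : B ∈ A ∧ R ∈ St (FF l r B) := Finset.mem_sigma.1 hp
    have hp2 : B' ∈ A ∧ R' ∈ St (FF l r B') := Finset.mem_sigma.1 hp'
    have hB := hA hp1.1
    have hB' := hA hp2.1
    have f1 : info l r B = info l r B' := congrArg Prod.fst heq
    have f2 : nt l r B = nt l r B' := congrArg (fun p => p.2.1) heq
    have f3 : sg l r B ∪ R = sg l r B' ∪ R' := congrArg (fun p => p.2.2) heq
    have f4 : FF l r B = FF l r B' := by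
      ext X
      rw [mem_FF_iff hB, mem_FF_iff hB', f1, f2]
    have hRF : R ⊆ FF l r B := by
      have := hp1.2
      unfold St at this
      exact mem_powerset.1 (mem_filter.1 this).1
    have hRF' : R' ⊆ FF l r B' := by
      have := hp2.2
      unfold St at this
      exact mem_powerset.1 (mem_filter.1 this).1
    have g1 : ∀ {B R : Fam n}, R ⊆ FF l r B → R = (sg l r B ∪ R).filter (fun X => X ∈ FF l r B) := by
      intro B R h
      ext X
      rw [mem_filter, mem_union]
      constructor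
      · intro hX; exact ⟨Or.inr hX, h hX⟩
      · rintro ⟨hX | hX, hX'⟩
        · exact absurd hX (mem_FF.1 hX').2.2
        · exact hX
    have g2 : ∀ {B R : Fam n}, R ⊆ FF l r B → sg l r B = (sg l r B ∪ R).filter
        (fun X => X ∉ FF l r B) := by
      intro B R h
      ext X
      rw [mem_filter, mem_union]
      constructor
      · intro hX; exact ⟨Or.inl hX, fun h' => (mem_FF.1 h').2.2 hX⟩
      · rintro ⟨hX | hX, hX'⟩
        · exact hX
        · exact absurd (h hX) hX'
    have f5 : R = R' := by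
      rw [g1 hRF, g1 hRF', f3, f4]
    have f6 : sg l r B = sg l r B' := by
      rw [g2 hRF, g2 hRF', f3, f4]
    have f7 : UU l r B = UU l r B' := by
      ext X
      rw [D4.F3_mem_UU_iff (htie' B hB), D4.F3_mem_UU_iff (htie' B' hB'), f6, f2, f1]
    have f8 : B = B' := by
      ext X
      rw [D4.F3_mem_B (l := l) (mem_BF.1 hB) (hQ' B hB) (htie' B hB),
        D4.F3_mem_B (l := l) (mem_BF.1 hB') (hQ' B' hB') (htie' B' hB'), f7, f1]
    subst f8
    subst f5
    rfl

theorem card_FF {n l r : ℕ} {B : Fam n} (hB : B ∈ BF n r) :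
    (FF l r B).card + (sg l r B).card =
      ((powersetCard r (univ : Finset (Fin n))).filter (fun X => X ∉ B)).card := by
  classical
  rw [← card_union_of_disjoint]
  · congr 1
    ext X
    rw [mem_union, mem_FF, mem_filter, mem_powersetCard]
    constructor
    · rintro (⟨a, b, c⟩ | h)
      · exact ⟨⟨subset_univ _, a⟩, b⟩
      · have := D4.F3_mem_UU.1 (sg_sub h).1
        exact ⟨⟨subset_univ _, this.1⟩, this.2.1⟩
    · rintro ⟨⟨-, a⟩, b⟩
      by_cases h : X ∈ sg l r B
      · exact Or.inr h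
      · exact Or.inl ⟨a, b, h⟩
  · rw [disjoint_left]
    intro X hX hX'
    exact (mem_FF.1 hX).2.2 hX'

/-- the count of the matroids with many nonbases -/
theorem dense_count {n r l K : ℕ} (hn : 0 < n) (hl : 1 ≤ l) (A : Finset (Fam n)) (hA : A ⊆ BF n r)
    (h1 : ∀ B ∈ A, ∀ x, indep B {x}) (h2 : ∀ B ∈ A, ∀ x, ∃ Y ∈ B, x ∉ Y) (δ s : ℝ)
    (hδ : ∀ B ∈ A, δ ≤ ((((powersetCard r (univ : Finset (Fin n))).filter
      (fun X => X ∉ B)).card : ℕ) : ℝ))
    (hs : ∀ R ∈ St (powersetCard r (univ : Finset (Fin n))), (R.card : ℝ) ≤ s) :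
    (A.card : ℝ) ≤ (((BF n r).image (info l r)).card : ℝ) *
        ((St (powersetCard r (univ : Finset (Fin n)))).card : ℝ) / 2 ^ K +
      (((BF n r).image (info l r)).card : ℝ) * (SB n K : ℝ) *
        ((St (powersetCard r (univ : Finset (Fin n)))).card : ℝ) / (2 : ℝ) ^ ((δ - s) / n) := by
  classical
  set A2 := (BF n r).filter (fun B => K ≤ (nt l r B).card) with hA2
  set A3 := A.filter (fun B => (nt l r B).card ≤ K) with hA3
  have hcov : A ⊆ A2 ∪ A3 := by
    intro B hB
    by_cases h : K ≤ (nt l r B).card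
    · exact mem_union_left _ (mem_filter.2 ⟨hA hB, h⟩)
    · exact mem_union_right _ (mem_filter.2 ⟨hB, by omega⟩)
  have hc : (A.card : ℝ) ≤ A2.card + A3.card := by
    exact_mod_cast (card_le_card hcov).trans (card_union_le A2 A3)
  have f1 := D2.F1 (n := n) (r := r) (l := l) hQ' htie' hadj'
  have e2 : (A2.card : ℝ) ≤ (((BF n r).image (info l r)).card : ℝ) *
        ((St (powersetCard r (univ : Finset (Fin n)))).card : ℝ) / 2 ^ K := by
    rw [le_div_iff₀ (by positivity)]
    have : A2.card * 2 ^ K ≤ ∑ B ∈ BF n r, 2 ^ (nt l r B).card := by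
      rw [← smul_eq_mul, ← sum_const]
      calc ∑ B ∈ A2, 2 ^ K ≤ ∑ B ∈ A2, 2 ^ (nt l r B).card := by
            apply sum_le_sum
            intro B hB
            exact Nat.pow_le_pow_right (by norm_num) (mem_filter.1 hB).2
        _ ≤ _ := sum_le_sum_of_subset (filter_subset _ _)
    exact_mod_cast this.trans f1
  have e3 : (A3.card : ℝ) ≤ (((BF n r).image (info l r)).card : ℝ) * (SB n K : ℝ) *
        ((St (powersetCard r (univ : Finset (Fin n)))).card : ℝ) / (2 : ℝ) ^ ((δ - s) / n) := by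
    rw [le_div_iff₀ (by positivity)]
    have hsum := sum_St (n := n) (l := l) (r := r) (K := K) hl A3
      ((filter_subset _ _).trans hA) (fun B hB => h1 B (mem_filter.1 hB).1)
      (fun B hB => h2 B (mem_filter.1 hB).1) (fun B hB => (mem_filter.1 hB).2)
    have hlow : (A3.card : ℝ) * (2 : ℝ) ^ ((δ - s) / n) ≤
        ((∑ B ∈ A3, (St (FF l r B)).card : ℕ) : ℝ) := by
      rw [Nat.cast_sum, ← nsmul_eq_mul, ← sum_const]
      apply sum_le_sum
      intro B hB
      have hBA := (mem_filter.1 hB).1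
      refine le_trans ?_ (B1.st_lower hn (FF l r B))
      apply Real.rpow_le_rpow_of_exponent_le (by norm_num)
      apply div_le_div_of_nonneg_right _ (by positivity)
      have e := card_FF (l := l) (hA hBA)
      have e' : ((FF l r B).card : ℝ) + (sg l r B).card =
        ((((powersetCard r (univ : Finset (Fin n))).filter (fun X => X ∉ B)).card : ℕ) : ℝ) := by
        exact_mod_cast e
      have hs' := hs _ (sg_St (l := l) (hA hBA))
      have hd := hδ B hBA
      linarith
    refine hlow.trans ?_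
    exact_mod_cast hsum
  linarith

/-- without any condition -/
theorem all_count {n r l K : ℕ} (hl : 1 ≤ l) :
    ((BF n r).card : ℝ) ≤ (((BF n r).image (info l r)).card : ℝ) *
        ((St (powersetCard r (univ : Finset (Fin n)))).card : ℝ) / 2 ^ K +
      (((BF n r).image (info l r)).card : ℝ) * (SB n K : ℝ) *
        ((St (powersetCard r (univ : Finset (Fin n)))).card : ℝ) := by
  classical
  set A2 := (BF n r).filter (fun B => K ≤ (nt l r B).card) with hA2
  set A3 := (BF n r).filter (fun B => (nt l r B).card ≤ K) with hA3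
  have hcov : BF n r ⊆ A2 ∪ A3 := by
    intro B hB
    by_cases h : K ≤ (nt l r B).card
    · exact mem_union_left _ (mem_filter.2 ⟨hB, h⟩)
    · exact mem_union_right _ (mem_filter.2 ⟨hB, by omega⟩)
  have hc : ((BF n r).card : ℝ) ≤ A2.card + A3.card := by
    exact_mod_cast (card_le_card hcov).trans (card_union_le A2 A3)
  have f1 := D2.F1 (n := n) (r := r) (l := l) hQ' htie' hadj'
  have e2 : (A2.card : ℝ) ≤ (((BF n r).image (info l r)).card : ℝ) *
        ((St (powersetCard r (univ : Finset (Fin n)))).card : ℝ) / 2 ^ K := by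
    rw [le_div_iff₀ (by positivity)]
    have : A2.card * 2 ^ K ≤ ∑ B ∈ BF n r, 2 ^ (nt l r B).card := by
      rw [← smul_eq_mul, ← sum_const]
      calc ∑ B ∈ A2, 2 ^ K ≤ ∑ B ∈ A2, 2 ^ (nt l r B).card := by
            apply sum_le_sum
            intro B hB
            exact Nat.pow_le_pow_right (by norm_num) (mem_filter.1 hB).2
        _ ≤ _ := sum_le_sum_of_subset (filter_subset _ _)
    exact_mod_cast this.trans f1
  have e3 : A3.card ≤ ((BF n r).image (info l r)).card * SB n K *
        (St (powersetCard r (univ : Finset (Fin n)))).card := by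
    let T : Finset (Info n × Fam n × Fam n) :=
      ((BF n r).image (info l r)) ×ˢ ((univ : Finset (Fam n)).filter (fun S => S.card ≤ K)) ×ˢ
        (St (powersetCard r (univ : Finset (Fin n))))
    have hT : T.card ≤ ((BF n r).image (info l r)).card * SB n K *
        (St (powersetCard r (univ : Finset (Fin n)))).card := by
      simp only [T, Finset.card_product]
      calc ((BF n r).image (info l r)).card *
          (((univ : Finset (Fam n)).filter (fun S => S.card ≤ K)).card *
            (St (powersetCard r (univ : Finset (Fin n)))).card)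
          ≤ ((BF n r).image (info l r)).card * (SB n K *
            (St (powersetCard r (univ : Finset (Fin n)))).card) :=
            Nat.mul_le_mul_left _ (Nat.mul_le_mul_right _ D4.F3_SB)
        _ = _ := by ring
    refine le_trans ?_ hT
    refine Finset.card_le_card_of_injOn (fun B => (info l r B, nt l r B, sg l r B)) ?_ ?_
    · intro B hB
      rw [Finset.mem_coe, mem_filter] at hB
      simp only [T, Finset.coe_product, Set.mem_prod, Finset.mem_coe, Finset.mem_filter,
        Finset.mem_univ, true_and]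
      exact ⟨Finset.mem_image_of_mem _ hB.1, hB.2, sg_St hB.1⟩
    · intro B hB B' hB' heq
      rw [Finset.mem_coe, mem_filter] at hB hB'
      have f1 : info l r B = info l r B' := congrArg Prod.fst heq
      have f2 : nt l r B = nt l r B' := congrArg (fun p => p.2.1) heq
      have f6 : sg l r B = sg l r B' := congrArg (fun p => p.2.2) heq
      have f7 : UU l r B = UU l r B' := by
        ext X
        rw [D4.F3_mem_UU_iff (htie' B hB.1), D4.F3_mem_UU_iff (htie' B' hB'.1), f6, f2, f1]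
      ext X
      rw [D4.F3_mem_B (l := l) (mem_BF.1 hB.1) (hQ' B hB.1) (htie' B hB.1),
        D4.F3_mem_B (l := l) (mem_BF.1 hB'.1) (hQ' B' hB'.1) (htie' B' hB'.1), f7, f1]
  have e3' : (A3.card : ℝ) ≤ (((BF n r).image (info l r)).card : ℝ) * (SB n K : ℝ) *
        ((St (powersetCard r (univ : Finset (Fin n)))).card : ℝ) := by
    exact_mod_cast e3
  linarith

end Pool.Agent.W312.KC
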