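import Mathlib

set_option autoImplicit false

namespace Pool.Agent.W312.KC

/-- the matroids with ground set `Fin n` (labelled `n`-element matroids) -/
abbrev Lab (n : ℕ) : Type := {M : Matroid (Fin n) // M.E = Set.univ}

/-- isomorphism of matroids on `Fin n` -/
def Isom (n : ℕ) (M N : Lab n) : Prop :=
  ∃ σ : Equiv.Perm (Fin n), ∀ B : Set (Fin n), M.1.IsBase B ↔ N.1.IsBase (σ '' B)

/-- the isomorphism classes of `n`-element matroids (unlabelled `n`-element matroids) -/
abbrev Unlab (n : ℕ) : Type := Quot (Isom n)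

/-- `(X, Y)` is a `j`-separation of `M`: a partition of the ground set with `|X|, |Y| ≥ j` and
`r(X) + r(Y) - r(M) ≤ j - 1` -/
def IsSep {n : ℕ} (M : Matroid (Fin n)) (j : ℕ) (X Y : Set (Fin n)) : Prop :=
  X ∪ Y = M.E ∧ Disjoint X Y ∧ j ≤ X.ncard ∧ j ≤ Y.ncard ∧ M.eRk X + M.eRk Y + 1 ≤ M.eRank + j

/-- `M` is `k`-connected (Tutte connectivity): it has no `j`-separation for any `j < k` -/
def KConn {n : ℕ} (k : ℕ) (M : Matroid (Fin n)) : Prop :=
  ∀ j : ℕ, j < k → ∀ X Y : Set (Fin n), ¬ IsSep M j X Y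

end Pool.Agent.W312.KC
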