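import Pool.Agent.Helper46.A.G1
import Pool.Agent.Helper46.A.F

set_option autoImplicit false

namespace Pool.Agent.W312.KC

open Finset Pool.Agent.Helper46.A

theorem swap_image_eq {n : ℕ} {g h : Fin n} {X : Finset (Fin n)} (hgh : g ∈ X ↔ h ∈ X) :
    X.image (Equiv.swap g h) = X := by
  ext x
  rw [mem_image]
  constructor
  · rintro ⟨y, hy, rfl⟩
    rcases eq_or_ne y g with rfl | h1
    · rw [Equiv.swap_apply_left]; exact hgh.1 hy
    · rcases eq_or_ne y h with rfl | h2
      · rw [Equiv.swap_apply_right]; exact hgh.2 hy
      · rw [Equiv.swap_apply_of_ne_of_ne h1 h2]; exact hy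
  · intro hx
    refine ⟨Equiv.swap g h x, ?_, Equiv.swap_apply_self _ _ _⟩
    rcases eq_or_ne x g with rfl | h1
    · rw [Equiv.swap_apply_left]; exact hgh.1 hx
    · rcases eq_or_ne x h with rfl | h2
      · rw [Equiv.swap_apply_right]; exact hgh.2 hx
      · rw [Equiv.swap_apply_of_ne_of_ne h1 h2]; exact hx

open Classical in
/-- the families with a loop `g` are at most twice the families fixed by a transposition -/
theorem loops_le {n r : ℕ} (g h : Fin n) (hgh : g ≠ h) :
    ((BF n r).filter (fun B => ¬ indep B {g})).card ≤ 2 * (FixF r (Equiv.swap g h)).card := by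
  have hl : ∀ B : Fam n, ∀ x, ¬ indep B {x} ↔ ∀ X ∈ B, x ∉ X := by
    intro B x
    unfold indep
    simp
  set A := (BF n r).filter (fun B => ¬ indep B {g}) with hA
  have h1 : A.card = (A.filter (fun B => ¬ indep B {h})).card +
      (A.filter (fun B => ¬ ¬ indep B {h})).card :=
    (Finset.card_filter_add_card_filter_not _).symm
  have h2 : (A.filter (fun B => ¬ indep B {h})).card ≤ (FixF r (Equiv.swap g h)).card := by
    apply card_le_card
    intro B hB
    rw [mem_filter, hA, mem_filter] at hB
    obtain ⟨⟨hB, hg⟩, hh⟩ := hB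
    rw [hl] at hg hh
    unfold FixF
    rw [mem_filter]
    refine ⟨hB, ?_⟩
    have : ∀ X ∈ B, X.image (Equiv.swap g h) = X := fun X hX =>
      swap_image_eq ⟨fun h' => absurd h' (hg X hX), fun h' => absurd h' (hh X hX)⟩
    ext Y
    rw [mem_image]
    constructor
    · rintro ⟨X, hX, rfl⟩
      rw [this X hX]; exact hX
    · intro hY
      exact ⟨Y, hY, this Y hY⟩
  have h3 : (A.filter (fun B => ¬ ¬ indep B {h})).card ≤ (FixF r (Equiv.swap g h)).card := by
    -- replace the loop `g` by an element parallel to `h`
    let f : Fin n → Fin n := fun x => if x = g then h else x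
    have hfg : f g = h := if_pos rfl
    have hfn : ∀ x, x ≠ g → f x = x := fun x hx => if_neg hx
    have hfne : ∀ x, f x ≠ g := by
      intro x
      by_cases hx : x = g
      · rw [hx, hfg]; exact fun h' => hgh h'.symm
      · rw [hfn x hx]; exact hx
    have key : ∀ B ∈ A.filter (fun B => ¬ ¬ indep B {h}), ∃ B' ∈ FixF r (Equiv.swap g h),
        ∀ X : Finset (Fin n), X ∈ B ↔ (X ∈ B' ∧ g ∉ X) := by
      intro B hB
      rw [mem_filter, hA, mem_filter] at hB
      obtain ⟨⟨hB, hg⟩, hh⟩ := hB
      rw [hl] at hg
      have hBF := mem_BF.1 hB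
      obtain ⟨M, hE, hM⟩ := toMat hBF
      obtain ⟨X0, hX0⟩ := hBF.ne
      -- characterization of the bases
      have hch : ∀ X : Finset (Fin n), (M.comap f).IsBase (X : Set (Fin n)) ↔
          (X.image f ∈ B ∧ Set.InjOn f X) := by
        intro X
        rw [Matroid.comap_isBase_iff, hE]
        have e1 : f '' (f ⁻¹' (Set.univ : Set (Fin n))) = {g}ᶜ := by
          ext x
          simp only [Set.preimage_univ, Set.image_univ, Set.mem_range, Set.mem_compl_iff,
            Set.mem_singleton_iff]
          constructor
          · rintro ⟨y, rfl⟩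
            exact hfne y
          · intro hx
            exact ⟨x, hfn x hx⟩
        rw [e1]
        have e2 : M.IsBasis (f '' (X : Set (Fin n))) {g}ᶜ ↔ X.image f ∈ B := by
          rw [← hM, coe_image]
          have hsub : f '' (X : Set (Fin n)) ⊆ {g}ᶜ := by
            rintro _ ⟨y, _, rfl⟩
            exact hfne y
          constructor
          · intro hb
            exact hb.isBase_of_isBase_subset ((hM X0).2 hX0) (by
              intro x hx
              rw [Set.mem_compl_iff, Set.mem_singleton_iff]
              rintro rfl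
              exact hg X0 hX0 (by exact_mod_cast hx))
          · intro hb
            exact hb.isBasis_of_subset (by rw [hE]; exact Set.subset_univ _) hsub
        rw [e2]
        simp
      have hmem : ∀ X : Finset (Fin n), X ∈ F.bs_22726 (M.comap f) ↔
          (X.image f ∈ B ∧ Set.InjOn f X) := by
        intro X
        rw [F.mem_bs_22726, hch]
      have hf_id : ∀ X : Finset (Fin n), g ∉ X → X.image f = X := by
        intro X hX
        ext x
        rw [mem_image]
        constructor
        · rintro ⟨y, hy, rfl⟩
          rw [hfn y (fun h' => hX (h' ▸ hy))]; exact hy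
        · intro hx
          exact ⟨x, hx, hfn x (fun h' => hX (h' ▸ hx))⟩
      have hinj_id : ∀ X : Finset (Fin n), g ∉ X → Set.InjOn f X := by
        intro X hX x hx y hy hxy
        rw [hfn x (fun h' => hX (h' ▸ hx)), hfn y (fun h' => hX (h' ▸ hy))] at hxy
        exact hxy
      refine ⟨F.bs_22726 (M.comap f), ?_, ?_⟩
      · have hX0' : X0 ∈ F.bs_22726 (M.comap f) := by
          rw [hmem, hf_id X0 (hg X0 hX0)]
          exact ⟨hX0, hinj_id X0 (hg X0 hX0)⟩
        unfold FixF
        rw [mem_filter]
        constructor
        · rw [mem_BF]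
          obtain ⟨r', -, h'⟩ := F.bs_isBF_22726 (M.comap f)
          have : r' = r := by
            rw [← hBF.card X0 hX0, h'.card X0 hX0']
          rwa [this] at h'
        · have hsw : ∀ X : Finset (Fin n), X ∈ F.bs_22726 (M.comap f) →
              X.image (Equiv.swap g h) ∈ F.bs_22726 (M.comap f) := by
            intro X hX
            rw [hmem] at hX ⊢
            have hfs : ∀ x, f (Equiv.swap g h x) = f x := by
              intro x
              by_cases h4 : x = g
              · rw [h4, Equiv.swap_apply_left, hfg, hfn h (fun h' => hgh h'.symm)]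
              · by_cases h5 : x = h
                · rw [h5, Equiv.swap_apply_right, hfg, hfn h (fun h' => hgh h'.symm)]
                · rw [Equiv.swap_apply_of_ne_of_ne h4 h5]
            constructor
            · rw [image_image]
              have : (f ∘ (Equiv.swap g h)) = f := funext hfs
              rw [this]; exact hX.1
            · intro x hx y hy hxy
              rw [mem_coe, mem_image] at hx hy
              obtain ⟨x', hx', rfl⟩ := hx
              obtain ⟨y', hy', rfl⟩ := hy
              rw [hfs, hfs] at hxy
              rw [hX.2 hx' hy' hxy]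
          ext Y
          rw [mem_image]
          constructor
          · rintro ⟨X, hX, rfl⟩
            exact hsw X hX
          · intro hY
            refine ⟨Y.image (Equiv.swap g h), hsw Y hY, ?_⟩
            rw [image_image]
            have : (Equiv.swap g h : Fin n → Fin n) ∘ (Equiv.swap g h) = id := by
              funext x
              exact Equiv.swap_apply_self _ _ _
            rw [this, image_id]
      · intro X
        rw [hmem]
        constructor
        · intro hX
          have := hg X hX
          rw [hf_id X this]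
          exact ⟨⟨hX, hinj_id X this⟩, this⟩
        · rintro ⟨⟨hX, -⟩, hgX⟩
          rwa [hf_id X hgX] at hX
    choose! φ hφ hφ' using key
    refine card_le_card_of_injOn φ (fun B hB => hφ B hB) ?_
    intro B hB B' hB' heq
    ext X
    rw [hφ' B hB X, hφ' B' hB' X, heq]
  omega

theorem mem_dualF {n : ℕ} {B : Fam n} {X : Finset (Fin n)} : X ∈ dualF B ↔ Xᶜ ∈ B := by
  unfold dualF
  rw [mem_image]
  constructor
  · rintro ⟨Y, hY, rfl⟩
    rwa [compl_compl]
  · intro h
    exact ⟨Xᶜ, h, compl_compl X⟩

open Classical in
/-- coloops -/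
theorem coloops_le {n r : ℕ} (hr : r ≤ n) (g h : Fin n) (hgh : g ≠ h) :
    ((BF n r).filter (fun B => ∀ Y ∈ B, g ∈ Y)).card ≤
      2 * (FixF (n - r) (Equiv.swap g h)).card := by
  refine le_trans ?_ (loops_le (r := n - r) g h hgh)
  refine card_le_card_of_injOn dualF ?_ ?_
  · intro B hB
    rw [mem_coe, mem_filter] at hB ⊢
    refine ⟨mem_BF.2 (dual_isBF (mem_BF.1 hB.1)), ?_⟩
    unfold indep
    rintro ⟨X, hX, hgX⟩
    rw [mem_dualF] at hX
    have := hB.2 _ hX
    rw [mem_compl] at this
    exact this (singleton_subset_iff.1 hgX)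
  · intro B _ B' _ heq
    ext X
    have h1 : Xᶜ ∈ dualF B ↔ Xᶜ ∈ dualF B' := by
      show Xᶜ ∈ dualF B ↔ Xᶜ ∈ dualF B'
      rw [heq]
    rw [mem_dualF, mem_dualF, compl_compl] at h1
    exact h1

end Pool.Agent.W312.KC
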