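import Pool.Agent.Helper46.A.G3

set_option autoImplicit false

namespace Pool.Agent.W312.KC

open Finset Filter Pool.Agent.Helper46

/-- the threshold for the number of nontrivial classes -/
noncomputable def Kc (n : ℕ) : ℕ := ⌈3000 * ((AN.N0 n : ℝ) / (n : ℝ) ^ 2 * Real.log n)⌉₊

/-- the bound for the number of informations -/
noncomputable def Jc (n : ℕ) : ℝ :=
  ((2 : ℝ) ^ (AN.Fs n)) ^ 2 * ((AN.SB n (2 * AN.N0 n / (n / 8) ^ 2) : ℕ) : ℝ) ^ 2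

theorem base : ∀ᶠ n : ℕ in atTop, 100 ≤ n ∧ 1 ≤ Real.log (n : ℝ) ∧
    1 ≤ (AN.N0 n : ℝ) / (n : ℝ) ^ 2 ∧ (2 : ℝ) ^ n / (n : ℝ) ^ 4 ≤ 2 * ((AN.N0 n : ℝ) / (n : ℝ) ^ 2) ∧
    Jc n * (2 : ℝ) ^ (n ^ 2 + n + 2) ≤
      Real.exp (1303 * ((AN.N0 n : ℝ) / (n : ℝ) ^ 2 * Real.log n)) := by
  have hlog1 : ∀ᶠ n : ℕ in atTop, 1 ≤ Real.log (n : ℝ) :=
    (Real.tendsto_log_atTop.comp tendsto_natCast_atTop_atTop).eventually_ge_atTop 1
  filter_upwards [AN.E1.tail, AN.E3.h400_pow6, hlog1, eventually_ge_atTop 100] with n h1 h2 h4 h5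
  have hx : (100 : ℝ) ≤ n := by exact_mod_cast h5
  have hx0 : (0:ℝ) < n := by linarith
  have hn0 : 1 ≤ n := by omega
  have hN := AN.E3.h400_N0 n
  obtain ⟨J, hJ⟩ : ∃ J : ℕ, J = 2 * AN.N0 n / (n / 8) ^ 2 := ⟨_, rfl⟩
  have hJ2 : (J : ℝ) * (n : ℝ) ^ 2 ≤ 162 * (AN.N0 n : ℝ) := by
    have e1 : J * (n / 8) ^ 2 ≤ 2 * AN.N0 n := by
      rw [hJ]
      exact Nat.div_mul_le_self _ _
    have e2 : (J : ℝ) * ((n / 8 : ℕ) : ℝ) ^ 2 ≤ 2 * (AN.N0 n : ℝ) := by exact_mod_cast e1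
    have e3 : n ≤ 9 * (n / 8) := by omega
    have e4 : (n : ℝ) ≤ 9 * ((n / 8 : ℕ) : ℝ) := by exact_mod_cast e3
    have e5 : (n : ℝ) ^ 2 ≤ (9 * ((n / 8 : ℕ) : ℝ)) ^ 2 := pow_le_pow_left₀ hx0.le e4 2
    calc (J : ℝ) * (n : ℝ) ^ 2 ≤ J * (9 * ((n / 8 : ℕ) : ℝ)) ^ 2 :=
          mul_le_mul_of_nonneg_left e5 (Nat.cast_nonneg _)
      _ = 81 * (J * ((n / 8 : ℕ) : ℝ) ^ 2) := by ring
      _ ≤ 81 * (2 * (AN.N0 n : ℝ)) := mul_le_mul_of_nonneg_left e2 (by norm_num)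
      _ = 162 * (AN.N0 n : ℝ) := by ring
  have hx2 : ((n : ℝ) ^ 2 + n + 2) * (n : ℝ) ^ 2 ≤ AN.N0 n := by
    have e1 : ((n : ℝ) ^ 2 + n + 2) * (n : ℝ) ^ 2 * ((n : ℝ) + 1) ≤
        (AN.N0 n : ℝ) * ((n : ℝ) + 1) := by
      calc ((n : ℝ) ^ 2 + n + 2) * (n : ℝ) ^ 2 * ((n : ℝ) + 1)
          ≤ (2 * (n : ℝ) ^ 2) * (n : ℝ) ^ 2 * (2 * (n : ℝ)) := by
            apply mul_le_mul _ (by linarith) (by positivity) (by positivity)
            apply mul_le_mul_of_nonneg_right _ (by positivity)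
            nlinarith
        _ = 4 * (n : ℝ) ^ 5 := by ring
        _ ≤ (n : ℝ) * (n : ℝ) ^ 5 := mul_le_mul_of_nonneg_right (by linarith) (by positivity)
        _ = (n : ℝ) ^ 6 := by ring
        _ ≤ (2 : ℝ) ^ n := h2
        _ ≤ ((n : ℝ) + 1) * (AN.N0 n : ℝ) := hN
        _ = _ := mul_comm _ _
    exact le_of_mul_le_mul_right e1 (by positivity)
  obtain ⟨u, hu⟩ : ∃ u, u = (AN.N0 n : ℝ) / (n : ℝ) ^ 2 := ⟨_, rfl⟩
  obtain ⟨l, hl⟩ : ∃ l, l = Real.log (n : ℝ) := ⟨_, rfl⟩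
  rw [← hl] at h4
  have hNu : (AN.N0 n : ℝ) = u * (n : ℝ) ^ 2 := by
    rw [hu]; field_simp
  have hu1 : (n : ℝ) ^ 2 + n + 2 ≤ u := by
    rw [hu, le_div_iff₀ (by positivity)]
    exact hx2
  have hu2 : 1 ≤ u := by nlinarith
  have a1 : (AN.Fs n : ℝ) ≤ u := by
    have h1 : (AN.Fs n : ℝ) * (n : ℝ) ^ 3 ≤ u * (n : ℝ) ^ 3 := by
      refine h1.trans ?_
      rw [hNu]
      apply mul_le_mul_of_nonneg_left _ (by linarith)
      calc (n : ℝ) ^ 2 = (n : ℝ) ^ 2 * 1 := (mul_one _).symm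
        _ ≤ (n : ℝ) ^ 2 * n := mul_le_mul_of_nonneg_left (by linarith) (by positivity)
        _ = (n : ℝ) ^ 3 := by ring
    exact le_of_mul_le_mul_right h1 (by positivity)
  have a2 : (J : ℝ) ≤ 162 * u := by
    have h1 : (J : ℝ) * (n : ℝ) ^ 2 ≤ 162 * u * (n : ℝ) ^ 2 := by
      rw [hNu] at hJ2
      linarith
    exact le_of_mul_le_mul_right h1 (by positivity)
  have a3 : (2 : ℝ) ^ n / (n : ℝ) ^ 4 ≤ 2 * u := by
    rw [div_le_iff₀ (by positivity)]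
    calc (2 : ℝ) ^ n ≤ ((n : ℝ) + 1) * (AN.N0 n : ℝ) := hN
      _ = ((n : ℝ) + 1) * (u * (n : ℝ) ^ 2) := by rw [hNu]
      _ ≤ (2 * (n : ℝ) ^ 2) * (u * (n : ℝ) ^ 2) := by
          apply mul_le_mul_of_nonneg_right _ (by positivity)
          nlinarith
      _ = 2 * u * (n : ℝ) ^ 4 := by ring
  have hlog1 : Real.log 2 ≤ 1 := by
    have := Real.log_two_lt_d9
    linarith
  have hlog2 : 0 ≤ Real.log 2 := Real.log_nonneg (by norm_num)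
  rw [← hu, ← hl]
  refine ⟨h5, h4, hu2, a3, ?_⟩
  have hS := AN.E2.SB_le n J hn0
  unfold Jc
  rw [← hJ]
  have hnpow : (n : ℝ) ^ (4 * J) = Real.exp (4 * J * l) := by
    have : (4 * (J:ℝ) * l) = ((4 * J : ℕ) : ℝ) * Real.log n := by rw [hl]; push_cast; ring
    rw [this, Real.exp_nat_mul, Real.exp_log hx0]
  have b0 : u * 1 ≤ u * l := mul_le_mul_of_nonneg_left h4 (by linarith)
  have b1 : (AN.Fs n : ℝ) * Real.log 2 ≤ u * l := by
    have : (AN.Fs n : ℝ) * Real.log 2 ≤ u * 1 := mul_le_mul a1 hlog1 hlog2 (by linarith)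
    linarith
  have b2 : 4 * (J : ℝ) * l ≤ 648 * (u * l) := by
    have : (J : ℝ) * l ≤ 162 * u * l := mul_le_mul_of_nonneg_right a2 (by linarith)
    linarith
  have b3 : ((n : ℝ) ^ 2 + n + 2) * Real.log 2 ≤ u * l := by
    calc ((n : ℝ) ^ 2 + n + 2) * Real.log 2 ≤ ((n : ℝ) ^ 2 + n + 2) * 1 :=
          mul_le_mul_of_nonneg_left hlog1 (by positivity)
      _ ≤ u * l := by linarith
  calc ((2 : ℝ) ^ (AN.Fs n)) ^ 2 * ((AN.SB n J : ℕ) : ℝ) ^ 2 * (2 : ℝ) ^ (n ^ 2 + n + 2)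
      ≤ ((2 : ℝ) ^ (AN.Fs n)) ^ 2 * ((n : ℝ) ^ (4 * J) * Real.exp ((2 : ℝ) ^ n / (n : ℝ) ^ 4)) ^ 2 *
          (2 : ℝ) ^ (n ^ 2 + n + 2) := by
        apply mul_le_mul_of_nonneg_right _ (by positivity)
        apply mul_le_mul_of_nonneg_left _ (by positivity)
        exact pow_le_pow_left₀ (Nat.cast_nonneg _) hS 2
    _ = Real.exp (2 * ((AN.Fs n : ℝ) * Real.log 2) +
          2 * (4 * J * l + (2 : ℝ) ^ n / (n : ℝ) ^ 4) +
          ((n : ℝ) ^ 2 + n + 2) * Real.log 2) := by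
        rw [AN.E3.h400_two_pow (AN.Fs n), AN.E3.h400_two_pow (n ^ 2 + n + 2), hnpow,
          ← Real.exp_add, ← Real.exp_nat_mul, ← Real.exp_nat_mul, ← Real.exp_add, ← Real.exp_add]
        congr 1
        push_cast
        ring
    _ ≤ Real.exp (1303 * (u * l)) := by
        apply Real.exp_le_exp.mpr
        linarith

/-- first numeric fact -/
theorem num1 : ∀ᶠ n : ℕ in atTop, Jc n * (2 : ℝ) ^ (n ^ 2 + n + 2) ≤ (2 : ℝ) ^ (Kc n) := by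
  filter_upwards [base] with n hb
  obtain ⟨h5, h4, hu, -, hE⟩ := hb
  refine hE.trans ?_
  rw [AN.E3.h400_two_pow]
  apply Real.exp_le_exp.mpr
  have hK : 3000 * ((AN.N0 n : ℝ) / (n : ℝ) ^ 2 * Real.log n) ≤ (Kc n : ℝ) := Nat.le_ceil _
  have h2 := Real.log_two_gt_d9
  have h0 : 0 ≤ (AN.N0 n : ℝ) / (n : ℝ) ^ 2 * Real.log n := by positivity
  nlinarith

/-- second numeric fact -/
theorem num2 (c : ℝ) (hc : c < 1) : ∀ᶠ n : ℕ in atTop,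
    Jc n * (AN.SB n (Kc n) : ℝ) * (2 : ℝ) ^ (n ^ 2 + n + 2) ≤
      (2 : ℝ) ^ ((1 / 16 : ℝ) * (n : ℝ) ^ (-c) * (AN.N0 n : ℝ) / n) := by
  have hlim : ∀ᶠ n : ℕ in atTop, 14000 * Real.log (n : ℝ) ^ 2 ≤ (1 / 32) * (n : ℝ) ^ (1 - c) := by
    have h := (isLittleO_log_rpow_atTop (show (0:ℝ) < (1 - c) / 2 by linarith)).def
      (show (0:ℝ) < 1 / 1000 by norm_num)
    have h2 := tendsto_natCast_atTop_atTop (R := ℝ) |>.eventually h
    filter_upwards [h2, eventually_ge_atTop 1] with n hn hn1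
    have hn1' : (1:ℝ) ≤ n := by exact_mod_cast hn1
    have hn0 : (0:ℝ) < n := by linarith
    rw [Real.norm_eq_abs, abs_of_nonneg (Real.log_nonneg hn1'), Real.norm_eq_abs,
      abs_of_nonneg (by positivity)] at hn
    have e : (n : ℝ) ^ (1 - c) = ((n : ℝ) ^ ((1 - c) / 2)) ^ 2 := by
      rw [← Real.rpow_natCast, ← Real.rpow_mul hn0.le]
      congr 1; push_cast; ring
    rw [e]
    have h0 : 0 ≤ Real.log (n : ℝ) := Real.log_nonneg hn1'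
    have h3 : Real.log (n : ℝ) ^ 2 ≤ (1 / 1000 * (n : ℝ) ^ ((1 - c) / 2)) ^ 2 :=
      pow_le_pow_left₀ h0 hn 2
    have h4 : 0 ≤ ((n : ℝ) ^ ((1 - c) / 2)) ^ 2 := by positivity
    nlinarith
  filter_upwards [base, hlim] with n hb hl
  obtain ⟨h5, h4, hu, hP, hE⟩ := hb
  have hx : (100 : ℝ) ≤ n := by exact_mod_cast h5
  have hx0 : (0:ℝ) < n := by linarith
  have hS := AN.E2.SB_le n (Kc n) (by omega)
  obtain ⟨u, hu'⟩ : ∃ u, u = (AN.N0 n : ℝ) / (n : ℝ) ^ 2 := ⟨_, rfl⟩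
  obtain ⟨l, hl'⟩ : ∃ l, l = Real.log (n : ℝ) := ⟨_, rfl⟩
  have hK : (Kc n : ℝ) ≤ 3000 * (u * l) + 1 := by
    have h0 : 0 ≤ 3000 * ((AN.N0 n : ℝ) / (n : ℝ) ^ 2 * Real.log n) := by positivity
    have := (Nat.ceil_lt_add_one h0).le
    rw [← hu', ← hl'] at this
    unfold Kc
    rw [← hu', ← hl']
    exact this
  have hNu : (AN.N0 n : ℝ) = u * (n : ℝ) ^ 2 := by
    rw [hu']; field_simp
  rw [← hu'] at hu hP hE
  rw [← hl'] at h4 hE hl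
  have hnpow : (n : ℝ) ^ (4 * Kc n) = Real.exp (4 * Kc n * l) := by
    have : (4 * (Kc n:ℝ) * l) = ((4 * Kc n : ℕ) : ℝ) * Real.log n := by rw [hl']; push_cast; ring
    rw [this, Real.exp_nat_mul, Real.exp_log hx0]
  have hJ0 : 0 ≤ Jc n := by unfold Jc; positivity
  have hul : 1 ≤ u * l := by nlinarith
  calc Jc n * (AN.SB n (Kc n) : ℝ) * (2 : ℝ) ^ (n ^ 2 + n + 2)
      = (Jc n * (2 : ℝ) ^ (n ^ 2 + n + 2)) * (AN.SB n (Kc n) : ℝ) := by ring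
    _ ≤ Real.exp (1303 * (u * l)) *
        ((n : ℝ) ^ (4 * Kc n) * Real.exp ((2 : ℝ) ^ n / (n : ℝ) ^ 4)) :=
        mul_le_mul hE hS (by positivity) (by positivity)
    _ = Real.exp (1303 * (u * l) + (4 * Kc n * l + (2 : ℝ) ^ n / (n : ℝ) ^ 4)) := by
        rw [hnpow, ← Real.exp_add, ← Real.exp_add]
    _ ≤ Real.exp (14000 * (u * l ^ 2)) := by
        apply Real.exp_le_exp.mpr
        have e1 : 4 * (Kc n : ℝ) * l ≤ 4 * (3000 * (u * l) + 1) * l := by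
          apply mul_le_mul_of_nonneg_right _ (by linarith)
          linarith
        have e2 : u * l ≤ u * l ^ 2 := by
          have : l ≤ l ^ 2 := by nlinarith
          exact mul_le_mul_of_nonneg_left this (by linarith)
        have e3 : u ≤ u * l ^ 2 := by nlinarith
        have e4 : l ≤ u * l ^ 2 := by nlinarith
        nlinarith
    _ ≤ Real.exp (Real.log 2 * ((1 / 16 : ℝ) * (n : ℝ) ^ (-c) * (AN.N0 n : ℝ) / n)) := by
        apply Real.exp_le_exp.mpr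
        have e1 : (n : ℝ) ^ (-c) * (AN.N0 n : ℝ) / n = (n : ℝ) ^ (1 - c) * u := by
          rw [hNu, sub_eq_add_neg, Real.rpow_add hx0, Real.rpow_one]
          field_simp
        have e2 : (1 / 16 : ℝ) * (n : ℝ) ^ (-c) * (AN.N0 n : ℝ) / n =
            (1 / 16 : ℝ) * ((n : ℝ) ^ (1 - c) * u) := by
          rw [← e1]; ring
        rw [e2]
        have h2 : (1 / 2 : ℝ) ≤ Real.log 2 := by
          have := Real.log_two_gt_d9
          linarith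
        have h3 : 0 ≤ (n : ℝ) ^ (1 - c) * u := by positivity
        have h6 : u * (14000 * l ^ 2) ≤ u * ((1 / 32) * (n : ℝ) ^ (1 - c)) :=
          mul_le_mul_of_nonneg_left hl (by linarith)
        nlinarith
    _ = _ := (Real.rpow_def_of_pos (by norm_num : (0:ℝ) < 2) _).symm

end Pool.Agent.W312.KC
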