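import Pool.Agent.W312.KC.Sep
import Pool.Agent.W312.KC.Num

set_option autoImplicit false

namespace Pool.Agent.W312.KC

open Finset Filter Pool.Agent.Helper46 Pool.Agent.Helper46.A

theorem stable_card {n r : ℕ} (h1 : 1 ≤ r) (h2 : r ≤ n) (R : Fam n)
    (hR : R ∈ St (powersetCard r (univ : Finset (Fin n)))) :
    (R.card : ℝ) * ((n : ℝ) - r + 1) ≤ (n.choose r : ℝ) := by
  classical
  obtain ⟨k, rfl⟩ : ∃ k, r = k + 1 := ⟨r - 1, by omega⟩
  unfold St at hR
  rw [mem_filter, mem_powerset] at hR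
  have hs := A3.h208_sumd (n := n) univ R hR.1
  have h3 : ∑ Z ∈ powersetCard k (univ : Finset (Fin n)), (R.filter (fun Y => Z ⊆ Y)).card ≤
      ∑ Z ∈ powersetCard k (univ : Finset (Fin n)), 1 := by
    apply sum_le_sum
    intro Z hZ
    rw [mem_powersetCard] at hZ
    rw [card_le_one]
    intro v hv u hu
    rw [mem_filter] at hv hu
    by_contra hne
    have hvc := (mem_powersetCard.1 (hR.1 hv.1)).2
    have huc := (mem_powersetCard.1 (hR.1 hu.1)).2
    exact hR.2 v hv.1 u hu.1 (A3.h208_adj_of Z v u hZ.2 hvc huc hne hv.2 hu.2).2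
  rw [hs, sum_const, card_powersetCard, card_univ, Fintype.card_fin, smul_eq_mul, mul_one] at h3
  -- (k+1) * R.card ≤ choose n k
  have h4 : n.choose (k + 1) * (k + 1) = n.choose k * (n - k) := Nat.choose_succ_right_eq n k
  have h5 : (n.choose (k + 1) : ℝ) * (k + 1) = (n.choose k : ℝ) * ((n : ℝ) - k) := by
    have : ((n - k : ℕ) : ℝ) = (n : ℝ) - k := Nat.cast_sub (by omega)
    rw [← this]
    exact_mod_cast h4
  have h6 : ((k : ℝ) + 1) * R.card ≤ (n.choose k : ℝ) := by exact_mod_cast h3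
  have h7 : (0 : ℝ) < (k : ℝ) + 1 := by positivity
  have hkn : ((k : ℝ) + 1) ≤ n := by exact_mod_cast h2
  have h8 : ((k : ℝ) + 1) * ((R.card : ℝ) * ((n : ℝ) - ((k + 1 : ℕ) : ℝ) + 1)) ≤
      ((k : ℝ) + 1) * (n.choose (k + 1) : ℝ) := by
    push_cast
    have : (k + 1 : ℝ) * (R.card * (n - (k + 1) + 1)) = ((k + 1) * R.card) * ((n : ℝ) - k) := by ring
    rw [this, mul_comm (k + 1 : ℝ) (n.choose (k + 1) : ℝ), h5]
    exact mul_le_mul_of_nonneg_right h6 (by linarith)
  exact le_of_mul_le_mul_left h8 h7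

theorem tau_lt (ε : ℝ) (h0 : 0 < ε) (h1 : ε ≤ 1 / 4) :
    1 + (1 - ε) ^ 2 < 2 * (((1 - ε) ^ 2 : ℝ)) ^ ((1 / 2 : ℝ) - ε) := by
  have hp : 0 < 1 - ε := by linarith
  have e1 : (((1 - ε) ^ 2 : ℝ)) ^ ((1 / 2 : ℝ) - ε) = (1 - ε) * (1 - ε) ^ (-(2 * ε)) := by
    rw [← Real.rpow_natCast, ← Real.rpow_mul hp.le]
    conv_rhs => rw [← Real.rpow_one (1 - ε)]
    rw [← Real.rpow_mul hp.le, ← Real.rpow_add hp]
    congr 1
    push_cast
    ring
  have e2 : 1 + 2 * ε ^ 2 ≤ (1 - ε) ^ (-(2 * ε)) := by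
    rw [Real.rpow_def_of_pos hp]
    have h3 := Real.add_one_le_exp (Real.log (1 - ε) * (-(2 * ε)))
    have h4 : Real.log (1 - ε) ≤ -ε := by
      have := Real.log_le_sub_one_of_pos hp
      linarith
    nlinarith
  rw [e1]
  have h5 : (1 - ε) * (1 + 2 * ε ^ 2) ≤ (1 - ε) * (1 - ε) ^ (-(2 * ε)) :=
    mul_le_mul_of_nonneg_left e2 hp.le
  nlinarith [mul_pos h0 h0]

/-- the number of nonbases of a family that is balanced for a small `j` -/
theorem nonbases_lower (c : ℝ) (hc : c < 1) : ∃ c' : ℝ, c' < 1 ∧ ∀ᶠ n : ℕ in atTop,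
    ∀ r : ℕ, AN.N0 n ≤ 4 * n.choose r → ∀ B ∈ BF n r, ∀ j : ℕ, 1 ≤ j →
      (j : ℝ) ≤ c * Real.logb 2 n → Bal j B →
      (1 / 2 : ℝ) * (n : ℝ) ^ (-c') * (n.choose r : ℝ) ≤
        ((((powersetCard r (univ : Finset (Fin n))).filter (fun Z => Z ∉ B)).card : ℕ) : ℝ) := by
  obtain ⟨c1, hc1, hc10, hcc1⟩ : ∃ c1 : ℝ, c1 < 1 ∧ 0 < c1 ∧ c ≤ c1 :=
    ⟨max c (1 / 2), max_lt hc (by norm_num), lt_of_lt_of_le (by norm_num) (le_max_right _ _),
      le_max_left _ _⟩
  -- the base
  obtain ⟨b0, hb0⟩ : ∃ b0 : ℝ, b0 = (1 / 2 : ℝ) ^ (1 / c1) := ⟨_, rfl⟩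
  have hb0pos : 0 < b0 := by rw [hb0]; positivity
  have hb0lt : b0 < 1 / 2 := by
    rw [hb0]
    have h1 : 1 < 1 / c1 := by rw [lt_div_iff₀ hc10]; linarith
    calc (1 / 2 : ℝ) ^ (1 / c1) < (1 / 2 : ℝ) ^ (1 : ℝ) :=
          Real.rpow_lt_rpow_of_exponent_gt (by norm_num) (by norm_num) h1
      _ = 1 / 2 := Real.rpow_one _
  obtain ⟨β, hβ⟩ : ∃ β : ℝ, β = (b0 + 1 / 2) / 2 := ⟨_, rfl⟩
  have hβ1 : b0 < β := by linarith
  have hβ2 : β < 1 / 2 := by linarith
  have hβ0 : 0 < β := by linarith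
  obtain ⟨ε, hε⟩ : ∃ ε : ℝ, ε = (1 / 2 - β) / 2 := ⟨_, rfl⟩
  have hε0 : 0 < ε := by linarith
  have hε1 : ε ≤ 1 / 4 := by linarith
  have hlogβ : Real.log β < 0 := Real.log_neg hβ0 (by linarith)
  have hlog2 : 0 < Real.log 2 := Real.log_pos (by norm_num)
  obtain ⟨c', hc'⟩ : ∃ c' : ℝ, c' = - (c1 * Real.log β / Real.log 2) := ⟨_, rfl⟩
  refine ⟨c', ?_, ?_⟩
  · -- c' < 1
    have h1 : Real.log b0 < Real.log β := Real.log_lt_log hb0pos hβ1
    have h2 : Real.log b0 = - (Real.log 2 / c1) := by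
      rw [hb0, Real.log_rpow (by norm_num), one_div 2, Real.log_inv]
      ring
    rw [h2] at h1
    rw [hc', neg_lt, lt_div_iff₀ hlog2]
    have h3 : -(Real.log 2 / c1) * c1 < Real.log β * c1 := mul_lt_mul_of_pos_right h1 hc10
    have h4 : -(Real.log 2 / c1) * c1 = - Real.log 2 := by field_simp
    linarith
  · -- the estimates
    obtain ⟨x, hx⟩ : ∃ x : ℝ, x = (1 - ε) ^ 2 := ⟨_, rfl⟩
    have hx0 : 0 < x := by rw [hx]; have : 0 < 1 - ε := by linarith
                           positivity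
    have hx1 : x ≤ 1 := by rw [hx]; nlinarith
    obtain ⟨γ, hγ⟩ : ∃ γ : ℝ, γ = 1 / 2 - ε := ⟨_, rfl⟩
    obtain ⟨τ, hτ⟩ : ∃ τ : ℝ, τ = (1 + x) / (2 * x ^ γ) := ⟨_, rfl⟩
    have hτ0 : 0 < τ := by rw [hτ]; positivity
    have hτ1 : τ < 1 := by
      rw [hτ, div_lt_one (by positivity), hγ, hx]
      exact tau_lt ε hε0 hε1
    have hev1 : ∀ᶠ n : ℕ in atTop, c1 * Real.logb 2 n ≤ ε * (n : ℝ) / 2 := by
      have h := (Real.isLittleO_log_id_atTop).def
        (show (0:ℝ) < ε * Real.log 2 / (2 * c1) by positivity)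
      have h2 := tendsto_natCast_atTop_atTop (R := ℝ) |>.eventually h
      filter_upwards [h2, eventually_ge_atTop 1] with n hn hn1
      have hn1' : (1:ℝ) ≤ n := by exact_mod_cast hn1
      rw [Real.norm_eq_abs, abs_of_nonneg (Real.log_nonneg hn1'), Real.norm_eq_abs, id,
        abs_of_nonneg (by positivity)] at hn
      unfold Real.logb
      have : c1 * (Real.log n / Real.log 2) = Real.log n * (c1 / Real.log 2) := by ring
      rw [this]
      calc Real.log n * (c1 / Real.log 2)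
          ≤ (ε * Real.log 2 / (2 * c1) * n) * (c1 / Real.log 2) :=
            mul_le_mul_of_nonneg_right hn (by positivity)
        _ = ε * (n : ℝ) / 2 := by field_simp
    have hev2 : ∀ᶠ n : ℕ in atTop, 16 * ((n : ℝ) + 1) * τ ^ ((n : ℝ) / 2) ≤ 1 := by
      have hs0 : 0 ≤ τ ^ (1 / 2 : ℝ) := by positivity
      have hs1 : τ ^ (1 / 2 : ℝ) < 1 := Real.rpow_lt_one hτ0.le hτ1 (by norm_num)
      have h := tendsto_pow_const_mul_const_pow_of_abs_lt_one 1 (r := τ ^ (1 / 2 : ℝ))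
        (by rw [abs_of_nonneg hs0]; exact hs1)
      have h2 := h.eventually (ge_mem_nhds (show (0:ℝ) < 1 / 32 by norm_num))
      filter_upwards [h2, eventually_ge_atTop 1] with n hn hn1
      have hn1' : (1:ℝ) ≤ n := by exact_mod_cast hn1
      have e : τ ^ ((n : ℝ) / 2) = (τ ^ (1 / 2 : ℝ)) ^ n := by
        rw [← Real.rpow_natCast, ← Real.rpow_mul hτ0.le]
        congr 1; ring
      rw [e]
      rw [pow_one] at hn
      have h3 : 0 ≤ (τ ^ (1 / 2 : ℝ)) ^ n := by positivity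
      nlinarith
    filter_upwards [hev1, hev2, eventually_ge_atTop 2] with n h1 h2 hn2 r hr B hB j hj hjc hbal
    have hnr : (2 : ℝ) ≤ n := by exact_mod_cast hn2
    have hn0 : (0 : ℝ) < n := by linarith
    obtain ⟨X, hjX, hnX, a, ha⟩ := hbal.wlog hj (mem_BF.1 hB).card
    obtain ⟨X', hX', hX'c⟩ := exists_subset_card_eq hjX
    have hmany := many (r := r) B X X' hX' hX'c a ha β hβ0.le
    obtain ⟨S, hS⟩ : ∃ S, S = (X \ X')ᶜ := ⟨_, rfl⟩
    obtain ⟨m, hm⟩ : ∃ m, m = Xᶜ.card := ⟨_, rfl⟩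
    rw [← hS, ← hm] at hmany
    rw [← hm] at hnX
    have hSc : S.card = m + j := by
      rw [hS, card_compl, Fintype.card_fin, card_sdiff_of_subset hX', hX'c, hm, card_compl,
        Fintype.card_fin]
      have h1 := card_le_univ X
      rw [Fintype.card_fin] at h1
      have h2 := card_le_card hX'
      omega
    have hSn : S.card ≤ n := by
      have := card_le_univ S
      rwa [Fintype.card_fin] at this
    have hqn : (n : ℝ) ≤ 2 * (S.card : ℝ) := by
      have : n ≤ 2 * S.card := by omega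
      exact_mod_cast this
    have hlogn : 0 ≤ Real.logb 2 n := Real.logb_nonneg (by norm_num) (by linarith)
    have hjε : (j : ℝ) ≤ ε * S.card := by
      have : c * Real.logb 2 n ≤ c1 * Real.logb 2 n := mul_le_mul_of_nonneg_right hcc1 hlogn
      nlinarith
    -- the two tails
    have ht := tail S x γ hx0 hx1
    have ht' := tail' S x γ hx0 hx1
    set G := (powersetCard r (univ : Finset (Fin n))).filter
      (fun Z => β * ((m : ℝ) + j) ≤ ((Z ∩ S).card : ℝ) - j ∧
        β * ((m : ℝ) + j) ≤ (m : ℝ) - (Z ∩ S).card) with hG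
    set T1 := (univ : Finset (Finset (Fin n))).filter
      (fun Z => ((Z ∩ S).card : ℝ) < γ * S.card) with hT1
    set T2 := (univ : Finset (Finset (Fin n))).filter
      (fun Z => (S.card : ℝ) - (Z ∩ S).card < γ * S.card) with hT2
    have hcov : powersetCard r (univ : Finset (Fin n)) ⊆ G ∪ (T1 ∪ T2) := by
      intro Z hZ
      by_cases h : β * ((m : ℝ) + j) ≤ ((Z ∩ S).card : ℝ) - j ∧
        β * ((m : ℝ) + j) ≤ (m : ℝ) - (Z ∩ S).card
      · exact mem_union_left _ (mem_filter.2 ⟨hZ, h⟩)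
      · apply mem_union_right
        have hSc' : (S.card : ℝ) = m + j := by exact_mod_cast hSc
        rw [not_and_or] at h
        rcases h with h | h
        · apply mem_union_left
          refine mem_filter.2 ⟨mem_univ _, ?_⟩
          push Not at h
          have : γ * (S.card : ℝ) = β * ((m : ℝ) + j) + ε * S.card := by
            rw [← hSc']
            have : γ = β + ε := by rw [hγ, hε]; ring
            rw [this]; ring
          rw [this]
          linarith
        · apply mem_union_right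
          refine mem_filter.2 ⟨mem_univ _, ?_⟩
          push Not at h
          have : γ * (S.card : ℝ) = β * ((m : ℝ) + j) + ε * S.card := by
            rw [← hSc']
            have : γ = β + ε := by rw [hγ, hε]; ring
            rw [this]; ring
          rw [this]
          linarith
    have hcard : (n.choose r : ℝ) ≤ G.card + (T1.card + T2.card) := by
      have h3 := card_le_card hcov
      rw [card_powersetCard, card_univ, Fintype.card_fin] at h3
      have h4 := card_union_le G (T1 ∪ T2)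
      have h5 := card_union_le T1 T2
      exact_mod_cast h3.trans (h4.trans (by omega))
    have hxp : 0 < x ^ (γ * (S.card : ℝ)) := by positivity
    have hbd : ((1 + x) ^ S.card * 2 ^ (n - S.card)) / x ^ (γ * (S.card : ℝ)) ≤
        2 ^ n * τ ^ ((n : ℝ) / 2) := by
      have e1 : ((1 + x) ^ S.card * 2 ^ (n - S.card)) / x ^ (γ * (S.card : ℝ)) =
          2 ^ n * τ ^ S.card := by
        have e2 : x ^ (γ * (S.card : ℝ)) = (x ^ γ) ^ S.card := by
          rw [Real.rpow_mul hx0.le, Real.rpow_natCast]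
        have e3 : (2 : ℝ) ^ n = 2 ^ (n - S.card) * 2 ^ S.card := by
          rw [← pow_add]; congr 1; omega
        rw [e2, e3, hτ, div_pow, mul_pow]
        field_simp
      rw [e1]
      apply mul_le_mul_of_nonneg_left _ (by positivity)
      rw [← Real.rpow_natCast]
      exact Real.rpow_le_rpow_of_exponent_ge hτ0 hτ1.le (by linarith)
    have hT1' : (T1.card : ℝ) ≤ 2 ^ n * τ ^ ((n : ℝ) / 2) := by
      refine le_trans ?_ hbd
      rw [le_div_iff₀ hxp]; exact ht
    have hT2' : (T2.card : ℝ) ≤ 2 ^ n * τ ^ ((n : ℝ) / 2) := by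
      refine le_trans ?_ hbd
      rw [le_div_iff₀ hxp]; exact ht'
    have hN := AN.E3.h400_N0 n
    have hr' : (AN.N0 n : ℝ) ≤ 4 * (n.choose r : ℝ) := by exact_mod_cast hr
    have htail : 2 * (2 ^ n * τ ^ ((n : ℝ) / 2)) ≤ (1 / 2) * (n.choose r : ℝ) := by
      have hp0 : 0 ≤ τ ^ ((n : ℝ) / 2) := by positivity
      have h6 : (2 : ℝ) ^ n * τ ^ ((n : ℝ) / 2) ≤
          (((n : ℝ) + 1) * (4 * (n.choose r : ℝ))) * τ ^ ((n : ℝ) / 2) := by
        apply mul_le_mul_of_nonneg_right _ hp0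
        exact hN.trans (mul_le_mul_of_nonneg_left hr' (by positivity))
      have h7 : (16 * ((n : ℝ) + 1) * τ ^ ((n : ℝ) / 2)) * (n.choose r : ℝ) ≤
          1 * (n.choose r : ℝ) := mul_le_mul_of_nonneg_right h2 (by positivity)
      calc 2 * (2 ^ n * τ ^ ((n : ℝ) / 2))
          ≤ 2 * ((((n : ℝ) + 1) * (4 * (n.choose r : ℝ))) * τ ^ ((n : ℝ) / 2)) :=
            mul_le_mul_of_nonneg_left h6 (by norm_num)
        _ = (1 / 2) * ((16 * ((n : ℝ) + 1) * τ ^ ((n : ℝ) / 2)) * (n.choose r : ℝ)) := by ring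
        _ ≤ (1 / 2) * (1 * (n.choose r : ℝ)) := mul_le_mul_of_nonneg_left h7 (by norm_num)
        _ = (1 / 2) * (n.choose r : ℝ) := by ring
    have hGc : (1 / 2) * (n.choose r : ℝ) ≤ G.card := by linarith
    -- the power of β
    have hpow : (n : ℝ) ^ (-c') ≤ β ^ j := by
      rw [← Real.rpow_natCast]
      have h8 : (j : ℝ) ≤ c1 * Real.logb 2 n :=
        hjc.trans (mul_le_mul_of_nonneg_right hcc1 hlogn)
      calc (n : ℝ) ^ (-c') = β ^ (c1 * Real.logb 2 n) := by
            rw [Real.rpow_def_of_pos hn0, Real.rpow_def_of_pos hβ0, hc']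
            congr 1
            unfold Real.logb
            ring
        _ ≤ β ^ (j : ℝ) := Real.rpow_le_rpow_of_exponent_ge hβ0 (by linarith) h8
    calc (1 / 2 : ℝ) * (n : ℝ) ^ (-c') * (n.choose r : ℝ)
        = (n : ℝ) ^ (-c') * ((1 / 2) * (n.choose r : ℝ)) := by ring
      _ ≤ β ^ j * (G.card : ℝ) := mul_le_mul hpow hGc (by positivity) (by positivity)
      _ ≤ _ := hmany

end Pool.Agent.W312.KC
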