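import Pool.Agent.W312.KC.Count
import Pool.Agent.W312.KC.Lower
import Pool.Agent.W312.KC.Loops

set_option autoImplicit false

namespace Pool.Agent.W312.KC

open Finset Filter Pool.Agent.Helper46 Pool.Agent.Helper46.A

open Classical in
/-- families without loops and coloops that are balanced for some `j < k` -/
noncomputable def BadF (n r k : ℕ) : Finset (Fam n) :=
  (BF n r).filter (fun B => (∀ x, indep B {x}) ∧ (∀ x, ∃ Y ∈ B, x ∉ Y) ∧
    ∃ j, 1 ≤ j ∧ j < k ∧ Bal j B)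

theorem mem_BadF {n r k : ℕ} {B : Fam n} : B ∈ BadF n r k ↔ B ∈ BF n r ∧
    (∀ x, indep B {x}) ∧ (∀ x, ∃ Y ∈ B, x ∉ Y) ∧ ∃ j, 1 ≤ j ∧ j < k ∧ Bal j B := by
  classical
  unfold BadF
  rw [mem_filter]

theorem BadF_sub {n r k : ℕ} : BadF n r k ⊆ BF n r := fun _ hB => (mem_BadF.1 hB).1

theorem st_small {n r : ℕ} (hn : 100 ≤ n) (h1 : n ≤ 8 * r) (h2 : 8 * r ≤ 7 * n)
    (hC : 4 * n.choose r < n.choose (n / 2))
    (hup : ∀ r : ℕ, n ≤ 8 * r → 8 * r ≤ 7 * n →
    4 * n.choose r < n.choose (n / 2) →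
    (∀ (a θ : ℝ), 0 < a → 0 < θ → ∀ V : Fam n,
      (∀ A ⊆ V, a < (A.card : ℝ) →
        ∃ v ∈ A, θ * (A.card : ℝ) ≤ ((A.filter (fun u => Adj v u)).card : ℝ)) →
      ∀ lam : ℝ, 1 ≤ lam →
      ((St V).card : ℝ) ≤ (2 : ℝ) ^ a * lam ^ (E7.tt a θ V.card) * (1 + 1 / lam) ^ V.card) →
    (∀ A : Fam n, A ⊆ powersetCard r (univ : Finset (Fin n)) →
      (1 + (1 / 10 : ℝ)) * ((n.choose r : ℝ) / ((n : ℝ) - r + 1)) < (A.card : ℝ) →
      ∃ v ∈ A, ((1 / 10 : ℝ) / (1 + (1 / 10 : ℝ))) *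
        ((r : ℝ) * ((n : ℝ) - r + 1) / (n.choose r : ℝ)) *
      (A.card : ℝ) ≤ ((A.filter (fun u => Adj v u)).card : ℝ)) →
    (∀ A : Fam n, A ⊆ powersetCard r (univ : Finset (Fin n)) →
      (1 + (1 / 10 : ℝ)) * ((n.choose r : ℝ) / ((r : ℝ) + 1)) < (A.card : ℝ) →
      ∃ v ∈ A, ((1 / 10 : ℝ) / (1 + (1 / 10 : ℝ))) *
        (((n : ℝ) - r) * ((r : ℝ) + 1) / (n.choose r : ℝ)) *
      (A.card : ℝ) ≤ ((A.filter (fun u => Adj v u)).card : ℝ)) →
    ((St (powersetCard r (univ : Finset (Fin n)))).card : ℝ) ≤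
      (2 : ℝ) ^ ((3 : ℝ) / 5 * ((n.choose (n / 2) : ℝ) / n))) :
    ((St (powersetCard r (univ : Finset (Fin n)))).card : ℝ) ≤
      (2 : ℝ) ^ ((3 : ℝ) / 5 * ((n.choose (n / 2) : ℝ) / n)) := by
  have hrows := A3.super_rows (n := n) univ r (by omega) (by rw [card_univ, Fintype.card_fin]; omega)
  have hcols := A4.super_cols (n := n) univ r (by rw [card_univ, Fintype.card_fin]; omega)
  exact hup r h1 h2 hC (fun a θ ha hθ V h lam hl => kwU a θ ha hθ V h lam hl)
      (fun A hA hc => by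
        have := hrows (1 / 10) (by norm_num) A hA (by rw [card_univ, Fintype.card_fin]; exact hc)
        rw [card_univ, Fintype.card_fin] at this
        exact this)
      (fun A hA hc => by
        have := hcols (1 / 10) (by norm_num)
          (fun j hj1 hj2 A hA hc => A3.super_rows univ j hj1 hj2 (1 / 10) (by norm_num) A hA hc)
          A hA (by rw [card_univ, Fintype.card_fin]; exact hc)
        rw [card_univ, Fintype.card_fin] at this
        exact this)

/-- the bound for one rank -/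
theorem rank_bound (c : ℝ) (hc : c < 1) : ∀ᶠ n : ℕ in atTop, ∀ r ≤ n, ∀ k : ℕ,
    (k : ℝ) ≤ c * Real.logb 2 n →
    ((BadF n r k).card : ℝ) * 2 ^ (n ^ 2 + n) ≤ mm n := by
  obtain ⟨c', hc', hlow⟩ := nonbases_lower c hc
  have hpow : ∀ᶠ n : ℕ in atTop, 32 ≤ (n : ℝ) ^ (1 - c') := by
    have := (tendsto_rpow_atTop (show 0 < 1 - c' by linarith)).comp
      (tendsto_natCast_atTop_atTop (R := ℝ))
    exact this.eventually_ge_atTop 32
  filter_upwards [hlow, hpow, num1, num2 c' hc', num2 (1 / 2) (by norm_num),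
    AN.E5.num3 AN.E1.tail, E7.upper, eventually_ge_atTop 100] with
    n hlow hpow h1 h2 h2' h3 hup hn r hr k hk
  have hn' : (100 : ℝ) ≤ n := by exact_mod_cast hn
  have hn0 : (0 : ℝ) < n := by linarith
  have hmm := mm_lower (n := n) (by omega)
  have hmm0 : 0 ≤ mm n := le_trans (by positivity) hmm
  have hsubB : (BadF n r k).card ≤ (BF n r).card := card_le_card BadF_sub
  by_cases hw : n ≤ 8 * r ∧ 8 * r ≤ 7 * n
  · obtain ⟨hw1, hw2⟩ := hw
    have hI := C6.info_card (n := n) (l := n / 8) (by omega) r (fun s B hB => C4.relH_card hB)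
    have hI' : (((BF n r).image (info (n / 8) r)).card : ℝ) ≤ Jc n := by
      unfold Jc
      exact_mod_cast hI
    have hS := st_le_mm (n := n) (r := r) (by omega) (by omega)
    obtain ⟨I, hId⟩ : ∃ I : ℝ, I = (((BF n r).image (info (n / 8) r)).card : ℝ) := ⟨_, rfl⟩
    obtain ⟨S, hSd⟩ : ∃ S : ℝ, S = ((St (powersetCard r (univ : Finset (Fin n)))).card : ℝ) :=
      ⟨_, rfl⟩
    have hI0 : 0 ≤ I := by rw [hId]; positivity
    have hS0 : 0 ≤ S := by rw [hSd]; positivity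
    have hJ0 : 0 ≤ Jc n := by unfold Jc; positivity
    rw [← hId] at hI'
    rw [← hSd] at hS
    have hP : (0 : ℝ) < 2 ^ (n ^ 2 + n + 2) := by positivity
    have hpow4 : (2 : ℝ) ^ (n ^ 2 + n + 2) = 4 * 2 ^ (n ^ 2 + n) := by
      rw [pow_add]; norm_num; ring
    have t2 : I * S / 2 ^ (Kc n) * 2 ^ (n ^ 2 + n + 2) ≤ mm n := by
      have e1 : I * 2 ^ (n ^ 2 + n + 2) ≤ 2 ^ (Kc n) :=
        le_trans (mul_le_mul_of_nonneg_right hI' hP.le) h1
      have e2 : I * 2 ^ (n ^ 2 + n + 2) / 2 ^ (Kc n) ≤ 1 := by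
        rw [div_le_one (by positivity)]; exact e1
      calc I * S / 2 ^ (Kc n) * 2 ^ (n ^ 2 + n + 2)
          = S * (I * 2 ^ (n ^ 2 + n + 2) / 2 ^ (Kc n)) := by ring
        _ ≤ S * 1 := mul_le_mul_of_nonneg_left e2 hS0
        _ ≤ mm n := by rw [mul_one]; exact hS
    by_cases hC : 4 * n.choose r < n.choose (n / 2)
    · have hst := st_small hn hw1 hw2 hC hup
      rw [← hSd] at hst
      have hall := all_count (n := n) (r := r) (l := n / 8) (K := Kc n) (by omega)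
      rw [← hId, ← hSd] at hall
      have t3 : I * (SB n (Kc n) : ℝ) * S * 2 ^ (n ^ 2 + n + 2) ≤ mm n := by
        have hsb : ∀ k, SB n k = AN.SB n k := fun k => rfl
        rw [hsb]
        have e1 : I * (AN.SB n (Kc n) : ℝ) * 2 ^ (n ^ 2 + n + 2) ≤
            (2 : ℝ) ^ ((1 / 16 : ℝ) * (n : ℝ) ^ (-(1 / 2 : ℝ)) * (AN.N0 n : ℝ) / n) := by
          refine le_trans ?_ h2'
          gcongr
        have e2 : (n : ℝ) ^ (-(1 / 2 : ℝ)) ≤ 1 :=
          Real.rpow_le_one_of_one_le_of_nonpos (by linarith) (by norm_num)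
        have e3 : (1 / 16 : ℝ) * (n : ℝ) ^ (-(1 / 2 : ℝ)) * (AN.N0 n : ℝ) / n ≤
            (2 / 5) * ((AN.N0 n : ℝ) / n) := by
          have e4 : (n : ℝ) ^ (-(1 / 2 : ℝ)) * ((AN.N0 n : ℝ) / n) ≤ 1 * ((AN.N0 n : ℝ) / n) :=
            mul_le_mul_of_nonneg_right e2 (by positivity)
          have e5 : 0 ≤ (AN.N0 n : ℝ) / n := by positivity
          calc (1 / 16 : ℝ) * (n : ℝ) ^ (-(1 / 2 : ℝ)) * (AN.N0 n : ℝ) / n
              = (1 / 16) * ((n : ℝ) ^ (-(1 / 2 : ℝ)) * ((AN.N0 n : ℝ) / n)) := by ring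
            _ ≤ (2 / 5) * ((AN.N0 n : ℝ) / n) := by linarith
        calc I * (AN.SB n (Kc n) : ℝ) * S * 2 ^ (n ^ 2 + n + 2)
            = (I * (AN.SB n (Kc n) : ℝ) * 2 ^ (n ^ 2 + n + 2)) * S := by ring
          _ ≤ (2 : ℝ) ^ ((2 / 5) * ((AN.N0 n : ℝ) / n)) *
              (2 : ℝ) ^ ((3 : ℝ) / 5 * ((n.choose (n / 2) : ℝ) / n)) := by
              apply mul_le_mul _ hst hS0 (by positivity)
              exact e1.trans (Real.rpow_le_rpow_of_exponent_le (by norm_num) e3)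
          _ = (2 : ℝ) ^ ((AN.N0 n : ℝ) / n) := by
              rw [← Real.rpow_add (by norm_num)]
              congr 1
              unfold AN.N0
              ring
          _ ≤ mm n := hmm
      have hsum : ((BF n r).card : ℝ) * 2 ^ (n ^ 2 + n + 2) ≤ 2 * mm n := by
        have := mul_le_mul_of_nonneg_right hall hP.le
        rw [add_mul] at this
        linarith
      have hsubB' : ((BadF n r k).card : ℝ) ≤ (BF n r).card := by exact_mod_cast hsubB
      rw [hpow4] at hsum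
      have h9 : ((BadF n r k).card : ℝ) * 2 ^ (n ^ 2 + n) ≤ (BF n r).card * 2 ^ (n ^ 2 + n) :=
        mul_le_mul_of_nonneg_right hsubB' (by positivity)
      have h10 : 0 ≤ ((BadF n r k).card : ℝ) * 2 ^ (n ^ 2 + n) := by positivity
      linarith
    · push Not at hC
      have hC' : AN.N0 n ≤ 4 * n.choose r := hC
      have hl1 : 1 ≤ n / 8 := by omega
      -- the dense count
      have hdc := dense_count (n := n) (r := r) (l := n / 8) (K := Kc n) (by omega) hl1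
        (BadF n r k) BadF_sub
        (fun B hB => (mem_BadF.1 hB).2.1) (fun B hB => (mem_BadF.1 hB).2.2.1)
        ((1 / 2 : ℝ) * (n : ℝ) ^ (-c') * (n.choose r : ℝ)) (8 / n * (n.choose r : ℝ))
        (by
          intro B hB
          obtain ⟨hB, -, -, j, hj1, hjk, hbal⟩ := mem_BadF.1 hB
          refine hlow r hC' B hB j hj1 ?_ hbal
          have : (j : ℝ) ≤ k := by exact_mod_cast hjk.le
          linarith)
        (by
          intro R hR
          have hs := stable_card (n := n) (r := r) (by omega) (by omega) R hR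
          have hrn : (n : ℝ) ≤ 8 * ((n : ℝ) - r + 1) := by
            have : 8 * (r : ℝ) ≤ 7 * n := by exact_mod_cast hw2
            linarith
          rw [div_mul_eq_mul_div, le_div_iff₀ hn0]
          calc (R.card : ℝ) * n ≤ (R.card : ℝ) * (8 * ((n : ℝ) - r + 1)) :=
                mul_le_mul_of_nonneg_left hrn (by positivity)
            _ = 8 * ((R.card : ℝ) * ((n : ℝ) - r + 1)) := by ring
            _ ≤ 8 * (n.choose r : ℝ) := mul_le_mul_of_nonneg_left hs (by norm_num))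
      rw [← hId, ← hSd] at hdc
      obtain ⟨D, hD⟩ : ∃ D : ℝ, D = ((1 / 2 : ℝ) * (n : ℝ) ^ (-c') * (n.choose r : ℝ) -
        8 / n * (n.choose r : ℝ)) / n := ⟨_, rfl⟩
      rw [← hD] at hdc
      have hDl : (1 / 16 : ℝ) * (n : ℝ) ^ (-c') * (AN.N0 n : ℝ) / n ≤ D := by
        rw [hD]
        apply div_le_div_of_nonneg_right _ hn0.le
        have e1 : (AN.N0 n : ℝ) ≤ 4 * (n.choose r : ℝ) := by exact_mod_cast hC'
        have e2 : 8 / (n : ℝ) ≤ (1 / 4) * (n : ℝ) ^ (-c') := by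
          have e3 : (n : ℝ) ^ (-c') = (n : ℝ) ^ (1 - c') / n := by
            rw [sub_eq_add_neg, Real.rpow_add hn0, Real.rpow_one]
            field_simp
          rw [e3, ← mul_div_assoc]
          apply div_le_div_of_nonneg_right _ hn0.le
          linarith
        have e4 : 0 ≤ (n : ℝ) ^ (-c') := by positivity
        have e5 : (0 : ℝ) ≤ n.choose r := by positivity
        have e6 : (n : ℝ) ^ (-c') * (AN.N0 n : ℝ) ≤ (n : ℝ) ^ (-c') * (4 * (n.choose r : ℝ)) :=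
          mul_le_mul_of_nonneg_left e1 e4
        have e7 : 8 / (n : ℝ) * (n.choose r : ℝ) ≤ ((1 / 4) * (n : ℝ) ^ (-c')) * (n.choose r : ℝ) :=
          mul_le_mul_of_nonneg_right e2 e5
        have e8 : (1 / 16 : ℝ) * (n : ℝ) ^ (-c') * (AN.N0 n : ℝ) ≤
            (1 / 16) * ((n : ℝ) ^ (-c') * (4 * (n.choose r : ℝ))) := by
          rw [mul_assoc]
          exact mul_le_mul_of_nonneg_left e6 (by norm_num)
        have e9 : (1 / 16) * ((n : ℝ) ^ (-c') * (4 * (n.choose r : ℝ))) =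
            (1 / 2 : ℝ) * (n : ℝ) ^ (-c') * (n.choose r : ℝ) -
              ((1 / 4) * (n : ℝ) ^ (-c')) * (n.choose r : ℝ) := by ring
        exact e8.trans (e9.le.trans (sub_le_sub_left e7 _))
      have t3 : I * (SB n (Kc n) : ℝ) * S / (2 : ℝ) ^ D * 2 ^ (n ^ 2 + n + 2) ≤ mm n := by
        have hsb : ∀ k, SB n k = AN.SB n k := fun k => rfl
        rw [hsb]
        have e1 : I * (AN.SB n (Kc n) : ℝ) * 2 ^ (n ^ 2 + n + 2) ≤ (2 : ℝ) ^ D := by
          refine le_trans ?_ (h2.trans (Real.rpow_le_rpow_of_exponent_le (by norm_num) hDl))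
          gcongr
        have e2 : I * (AN.SB n (Kc n) : ℝ) * 2 ^ (n ^ 2 + n + 2) / (2 : ℝ) ^ D ≤ 1 := by
          rw [div_le_one (by positivity)]; exact e1
        calc I * (AN.SB n (Kc n) : ℝ) * S / (2 : ℝ) ^ D * 2 ^ (n ^ 2 + n + 2)
            = S * (I * (AN.SB n (Kc n) : ℝ) * 2 ^ (n ^ 2 + n + 2) / (2 : ℝ) ^ D) := by ring
          _ ≤ S * 1 := mul_le_mul_of_nonneg_left e2 hS0
          _ ≤ mm n := by rw [mul_one]; exact hS
      have hsum : ((BadF n r k).card : ℝ) * 2 ^ (n ^ 2 + n + 2) ≤ 2 * mm n := by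
        have := mul_le_mul_of_nonneg_right hdc hP.le
        rw [add_mul] at this
        linarith
      rw [hpow4] at hsum
      have h9 : 0 ≤ ((BadF n r k).card : ℝ) * 2 ^ (n ^ 2 + n) := by positivity
      linarith
  · have hcF := choose_le_Fs hr hw
    have e1 : ((BadF n r k).card : ℝ) ≤ 2 ^ (AN.Fs n) := by
      have : (BadF n r k).card ≤ 2 ^ (AN.Fs n) :=
        hsubB.trans ((BF_card_le n r).trans (Nat.pow_le_pow_right (by norm_num) hcF))
      exact_mod_cast this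
    calc ((BadF n r k).card : ℝ) * 2 ^ (n ^ 2 + n) ≤ 2 ^ (AN.Fs n) * 2 ^ (n ^ 2 + n + 2) :=
          mul_le_mul e1 (pow_le_pow_right₀ (by norm_num) (by omega)) (by positivity)
            (by positivity)
      _ ≤ _ := h3.1
      _ ≤ _ := hmm

/-- all ranks -/
theorem all_ranks (c : ℝ) (hc : c < 1) : ∀ᶠ n : ℕ in atTop, ∀ k : ℕ,
    (k : ℝ) ≤ c * Real.logb 2 n →
    (∑ r ∈ range (n + 1), ((BadF n r k).card : ℝ)) * 2 ^ (n ^ 2) ≤ mm n := by
  filter_upwards [rank_bound c hc] with n hb k hk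
  have hmm0 : 0 ≤ mm n := by
    unfold mm
    positivity
  have hn1 : ((n : ℝ) + 1) ≤ 2 ^ n := by
    have : n + 1 ≤ 2 ^ n := Nat.lt_two_pow_self
    exact_mod_cast this
  have hp : (2 : ℝ) ^ (n ^ 2 + n) = 2 ^ (n ^ 2) * 2 ^ n := pow_add _ _ _
  have hsum : (∑ r ∈ range (n + 1), ((BadF n r k).card : ℝ)) * 2 ^ (n ^ 2 + n) ≤
      (n + 1) * mm n := by
    rw [sum_mul]
    calc ∑ r ∈ range (n + 1), ((BadF n r k).card : ℝ) * 2 ^ (n ^ 2 + n)
        ≤ ∑ r ∈ range (n + 1), mm n := sum_le_sum (fun r hr => hb r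
            (by rw [mem_range] at hr; omega) k hk)
      _ = (n + 1) * mm n := by rw [sum_const, card_range, nsmul_eq_mul]; push_cast; ring
  have h4 : (∑ r ∈ range (n + 1), ((BadF n r k).card : ℝ)) * 2 ^ (n ^ 2) * 2 ^ n ≤ mm n * 2 ^ n := by
    rw [mul_assoc, ← hp]
    refine hsum.trans ?_
    rw [mul_comm (mm n)]
    exact mul_le_mul_of_nonneg_right hn1 hmm0
  exact le_of_mul_le_mul_right h4 (by positivity)

end Pool.Agent.W312.KC
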