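import Pool.Agent.W312.KC.Defs
import Pool.Agent.W312.KC.Rank

set_option autoImplicit false

namespace Pool.Agent.W312.KC

open Finset Filter Pool.Agent.Helper46 Pool.Agent.Helper46.A

/-- there is no `0`-separation -/
theorem one_le_of_sep {n j : ℕ} {M : Matroid (Fin n)} {X Y : Set (Fin n)} (h : IsSep M j X Y) :
    1 ≤ j := by
  obtain ⟨hu, hd, hX, hY, hrk⟩ := h
  by_contra hj
  have hj0 : j = 0 := by omega
  subst hj0
  have h1 : M.eRank ≤ M.eRk X + M.eRk Y := by
    rw [M.eRank_def, ← hu]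
    exact M.eRk_union_le_eRk_add_eRk X Y
  have hfin : M.eRank ≠ ⊤ := by
    intro h
    have h2 := M.eRk_le_encard M.E
    rw [← M.eRank_def, h] at h2
    have h3 : (M.E).encard ≤ (Set.univ : Set (Fin n)).encard := Set.encard_le_encard (Set.subset_univ _)
    have h4 : (Set.univ : Set (Fin n)).encard = (n : ℕ∞) := by
      rw [Set.encard_univ]
      simp
    rw [h4] at h3
    exact absurd (h2.trans h3) (by simp)
  obtain ⟨a, ha⟩ := ENat.ne_top_iff_exists.1 hfin
  have h5 : M.eRank + 1 ≤ M.eRank + (0 : ℕ) := (add_le_add_left h1 1).trans hrk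
  rw [← ha] at h5
  have h6 : a + 1 ≤ a + 0 := by exact_mod_cast h5
  omega

/-- a separation makes the base family balanced -/
theorem bal_of_sep {n r j : ℕ} {M : Matroid (Fin n)} (hE : M.E = Set.univ)
    (hr : ∀ X : Finset (Fin n), M.IsBase (X : Set (Fin n)) → X.card = r)
    {X Y : Set (Fin n)} (h : IsSep M j X Y) : Bal j (F.bs_22726 M) := by
  classical
  obtain ⟨hu, hd, hX, hY, hrk⟩ := h
  lift X to Finset (Fin n) using X.toFinite
  lift Y to Finset (Fin n) using Y.toFinite
  rw [Set.ncard_coe_finset] at hX hY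
  rw [hE] at hu
  have hYX : Y = Xᶜ := by
    ext x
    have h1 : x ∈ (X : Set (Fin n)) ∪ (Y : Set (Fin n)) := by rw [hu]; trivial
    have h2 := Set.disjoint_left.1 hd
    rw [mem_compl]
    constructor
    · intro hx hx'
      exact h2 (mem_coe.2 hx') (mem_coe.2 hx)
    · intro hx
      rcases h1 with h1 | h1
      · exact absurd (mem_coe.1 h1) hx
      · exact mem_coe.1 h1
  obtain ⟨B0, hB0⟩ := M.exists_isBase
  lift B0 to Finset (Fin n) using B0.toFinite
  have hrank : M.eRank = (r : ℕ∞) := by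
    rw [← hB0.encard_eq_eRank, Set.encard_coe_eq_coe_finsetCard, hr B0 hB0]
  have hfin : ∀ Z : Finset (Fin n), M.eRk (Z : Set (Fin n)) ≠ ⊤ := by
    intro Z h
    have := M.eRk_le_encard (Z : Set (Fin n))
    rw [h, Set.encard_coe_eq_coe_finsetCard] at this
    exact absurd this (by simp)
  obtain ⟨p, hp⟩ := ENat.ne_top_iff_exists.1 (hfin X)
  obtain ⟨q, hq⟩ := ENat.ne_top_iff_exists.1 (hfin Y)
  rw [hrank, ← hp, ← hq] at hrk
  have hrk' : p + q + 1 ≤ r + j := by exact_mod_cast hrk
  have hind : ∀ Z ∈ F.bs_22726 M, (Z ∩ X).card ≤ p ∧ (Z ∩ Y).card ≤ q ∧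
      (Z ∩ X).card + (Z ∩ Y).card = r := by
    intro Z hZ
    rw [F.mem_bs_22726] at hZ
    have hi : ∀ W : Finset (Fin n), ((Z ∩ W).card : ℕ∞) ≤ M.eRk (W : Set (Fin n)) := by
      intro W
      have h1 : M.Indep ((Z ∩ W : Finset (Fin n)) : Set (Fin n)) :=
        hZ.indep.subset (by rw [coe_inter]; exact Set.inter_subset_left)
      have h2 := h1.encard_le_eRk_of_subset (X := (W : Set (Fin n)))
        (by rw [coe_inter]; exact Set.inter_subset_right)
      rwa [Set.encard_coe_eq_coe_finsetCard] at h2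
    refine ⟨?_, ?_, ?_⟩
    · have := hi X
      rw [← hp] at this
      exact_mod_cast this
    · have := hi Y
      rw [← hq] at this
      exact_mod_cast this
    · rw [← hr Z hZ, hYX, ← card_union_of_disjoint, ← inter_union_distrib_left, union_compl,
        inter_univ]
      rw [disjoint_left]
      intro x hx hx'
      rw [mem_inter] at hx hx'
      exact (mem_compl.1 hx'.2) hx.2
  refine ⟨X, hX, hYX ▸ hY, r - q, fun Z hZ => ?_⟩
  obtain ⟨h1, h2, h3⟩ := hind Z hZ
  have hqr : q ≤ r := by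
    have h4 := M.eRk_le_eRank (Y : Set (Fin n))
    rw [← hq, hrank] at h4
    exact_mod_cast h4
  omega

theorem lab_finite (n : ℕ) : Finite (Lab n) := F.finX_22726 n

theorem card_split {α : Type*} [Finite α] (p : α → Prop) :
    Nat.card α = Nat.card {x : α // p x} + Nat.card {x : α // ¬ p x} := by
  classical
  haveI : Fintype α := Fintype.ofFinite _
  rw [Nat.card_eq_fintype_card, Nat.card_eq_fintype_card, Nat.card_eq_fintype_card,
    Fintype.card_subtype, Fintype.card_subtype, Finset.card_filter_add_card_filter_not,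
    Finset.card_univ]

open Classical in
/-- the labelled matroids that are not `k`-connected -/
theorem bad_le {n k : ℕ} :
    (Nat.card {M : Lab n // ¬ KConn k M.1} : ℝ) ≤
      (∑ g : Fin n, ∑ r ∈ range (n + 1),
        (((BF n r).filter (fun B => ¬ indep B {g})).card : ℝ)) +
      (∑ g : Fin n, ∑ r ∈ range (n + 1),
        (((BF n r).filter (fun B => ∀ Y ∈ B, g ∈ Y)).card : ℝ)) +
      ∑ r ∈ range (n + 1), ((BadF n r k).card : ℝ) := by
  classical
  haveI := lab_finite n
  haveI : Fintype {M : Lab n // ¬ KConn k M.1} := Fintype.ofFinite _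
  set T1 := (univ : Finset (Fin n)).biUnion (fun g => (range (n + 1)).biUnion (fun r =>
    (BF n r).filter (fun B => ¬ indep B {g}))) with hT1
  set T2 := (univ : Finset (Fin n)).biUnion (fun g => (range (n + 1)).biUnion (fun r =>
    (BF n r).filter (fun B => ∀ Y ∈ B, g ∈ Y))) with hT2
  set T3 := (range (n + 1)).biUnion (fun r => BadF n r k) with hT3
  have h1 : Nat.card {M : Lab n // ¬ KConn k M.1} ≤ (T1 ∪ T2 ∪ T3).card := by
    rw [Nat.card_eq_fintype_card, ← Finset.card_univ]
    refine card_le_card_of_injOn (fun M => F.bs_22726 M.1.1) ?_ ?_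
    · rintro ⟨M, hM⟩ _
      obtain ⟨r, hr, hBF⟩ := F.bs_isBF_22726 M.1
      have hrr : r ∈ range (n + 1) := mem_range.2 (by omega)
      have hmem : F.bs_22726 M.1 ∈ BF n r := mem_BF.2 hBF
      rw [mem_coe, mem_union, mem_union]
      show (F.bs_22726 M.1 ∈ T1 ∨ F.bs_22726 M.1 ∈ T2) ∨ F.bs_22726 M.1 ∈ T3
      by_cases hl : ∀ x, indep (F.bs_22726 M.1) {x}
      · by_cases hcl : ∀ x, ∃ Y ∈ F.bs_22726 M.1, x ∉ Y
        · right
          rw [hT3, mem_biUnion]
          refine ⟨r, hrr, mem_BadF.2 ⟨hmem, hl, hcl, ?_⟩⟩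
          unfold KConn at hM
          push Not at hM
          obtain ⟨j, hjk, X, Y, hsep⟩ := hM
          exact ⟨j, one_le_of_sep hsep, hjk, bal_of_sep M.2
            (fun X hX => hBF.card X ((F.mem_bs_22726 _ _).2 hX)) hsep⟩
        · left; right
          push Not at hcl
          obtain ⟨x, hx⟩ := hcl
          rw [hT2, mem_biUnion]
          exact ⟨x, mem_univ _, mem_biUnion.2 ⟨r, hrr, mem_filter.2 ⟨hmem, hx⟩⟩⟩
      · left; left
        push Not at hl
        obtain ⟨x, hx⟩ := hl
        rw [hT1, mem_biUnion]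
        exact ⟨x, mem_univ _, mem_biUnion.2 ⟨r, hrr, mem_filter.2 ⟨hmem, hx⟩⟩⟩
    · intro M _ N _ h
      exact Subtype.ext (F.bs_inj_22726 h)
  have h2 : (T1 ∪ T2 ∪ T3).card ≤ T1.card + T2.card + T3.card :=
    (card_union_le _ _).trans (Nat.add_le_add_right (card_union_le _ _) _)
  have e1 : T1.card ≤ ∑ g : Fin n, ∑ r ∈ range (n + 1),
      ((BF n r).filter (fun B => ¬ indep B {g})).card :=
    card_biUnion_le.trans (sum_le_sum fun g _ => card_biUnion_le)
  have e2 : T2.card ≤ ∑ g : Fin n, ∑ r ∈ range (n + 1),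
      ((BF n r).filter (fun B => ∀ Y ∈ B, g ∈ Y)).card :=
    card_biUnion_le.trans (sum_le_sum fun g _ => card_biUnion_le)
  have e3 : T3.card ≤ ∑ r ∈ range (n + 1), (BadF n r k).card := card_biUnion_le
  have h3 : Nat.card {M : Lab n // ¬ KConn k M.1} ≤
      (∑ g : Fin n, ∑ r ∈ range (n + 1), ((BF n r).filter (fun B => ¬ indep B {g})).card) +
      (∑ g : Fin n, ∑ r ∈ range (n + 1), ((BF n r).filter (fun B => ∀ Y ∈ B, g ∈ Y)).card) +
      ∑ r ∈ range (n + 1), (BadF n r k).card := by
    omega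
  have h4 : ((Nat.card {M : Lab n // ¬ KConn k M.1} : ℕ) : ℝ) ≤
      (((∑ g : Fin n, ∑ r ∈ range (n + 1), ((BF n r).filter (fun B => ¬ indep B {g})).card) +
      (∑ g : Fin n, ∑ r ∈ range (n + 1), ((BF n r).filter (fun B => ∀ Y ∈ B, g ∈ Y)).card) +
      ∑ r ∈ range (n + 1), (BadF n r k).card : ℕ) : ℝ) := by exact_mod_cast h3
  push_cast at h4
  convert h4 using 0

open Classical in
/-- few matroids are not `k`-connected -/
theorem bad_small (c : ℝ) (hc : c < 1) : ∀ᶠ n : ℕ in atTop, ∀ k : ℕ,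
    (k : ℝ) ≤ c * Real.logb 2 n →
    (Nat.card {M : Lab n // ¬ KConn k M.1} : ℝ) * 2 ^ (n ^ 2) ≤ (4 * n + 1) * mm n := by
  classical
  filter_upwards [all_ranks c hc, fix_small, eventually_ge_atTop 2] with n h1 h2 hn k hk
  have hP : (0 : ℝ) < 2 ^ (n ^ 2) := by positivity
  have hmm0 : 0 ≤ mm n := by
    unfold mm
    positivity
  have hother : ∀ g : Fin n, ∃ h : Fin n, g ≠ h := by
    intro g
    haveI : Nontrivial (Fin n) := Fin.nontrivial_iff_two_le.2 hn
    obtain ⟨h, hh⟩ := exists_ne g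
    exact ⟨h, hh.symm⟩
  have hswap : ∀ g h : Fin n, g ≠ h →
      (∑ r ∈ range (n + 1), ((FixF r (Equiv.swap g h)).card : ℝ)) * 2 ^ (n ^ 2) ≤ mm n := by
    intro g h hgh
    refine h2 _ ?_
    intro he
    have := congrArg (fun σ : Equiv.Perm (Fin n) => σ g) he
    simp only [Equiv.swap_apply_left, Equiv.Perm.coe_one, id] at this
    exact hgh this.symm
  have e1 : ∀ g : Fin n, (∑ r ∈ range (n + 1),
      (((BF n r).filter (fun B => ¬ indep B {g})).card : ℝ)) * 2 ^ (n ^ 2) ≤ 2 * mm n := by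
    intro g
    obtain ⟨h, hgh⟩ := hother g
    have h3 : (∑ r ∈ range (n + 1), (((BF n r).filter (fun B => ¬ indep B {g})).card : ℝ)) ≤
        2 * ∑ r ∈ range (n + 1), ((FixF r (Equiv.swap g h)).card : ℝ) := by
      rw [mul_sum]
      apply sum_le_sum
      intro r _
      have := loops_le (r := r) g h hgh
      have h' : (((BF n r).filter (fun B => ¬ indep B {g})).card : ℝ) ≤
        ((2 * (FixF r (Equiv.swap g h)).card : ℕ) : ℝ) := by
        refine le_trans (le_of_eq ?_) (Nat.cast_le.2 this)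
        congr
      push_cast at h'
      exact h'
    calc _ ≤ (2 * ∑ r ∈ range (n + 1), ((FixF r (Equiv.swap g h)).card : ℝ)) * 2 ^ (n ^ 2) :=
          mul_le_mul_of_nonneg_right h3 hP.le
      _ = 2 * ((∑ r ∈ range (n + 1), ((FixF r (Equiv.swap g h)).card : ℝ)) * 2 ^ (n ^ 2)) := by ring
      _ ≤ 2 * mm n := mul_le_mul_of_nonneg_left (hswap g h hgh) (by norm_num)
  have e2 : ∀ g : Fin n, (∑ r ∈ range (n + 1),
      (((BF n r).filter (fun B => ∀ Y ∈ B, g ∈ Y)).card : ℝ)) * 2 ^ (n ^ 2) ≤ 2 * mm n := by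
    intro g
    obtain ⟨h, hgh⟩ := hother g
    have h3 : (∑ r ∈ range (n + 1), (((BF n r).filter (fun B => ∀ Y ∈ B, g ∈ Y)).card : ℝ)) ≤
        2 * ∑ r ∈ range (n + 1), ((FixF r (Equiv.swap g h)).card : ℝ) := by
      have h4 : ∑ r ∈ range (n + 1), ((FixF r (Equiv.swap g h)).card : ℝ) =
          ∑ r ∈ range (n + 1), ((FixF (n - r) (Equiv.swap g h)).card : ℝ) := by
        rw [← sum_range_reflect]
        apply sum_congr rfl
        intro r hr
        congr 3
      rw [h4, mul_sum]
      apply sum_le_sum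
      intro r hr
      rw [mem_range] at hr
      have := coloops_le (r := r) (by omega) g h hgh
      have h' : (((BF n r).filter (fun B => ∀ Y ∈ B, g ∈ Y)).card : ℝ) ≤
        ((2 * (FixF (n - r) (Equiv.swap g h)).card : ℕ) : ℝ) := by
        refine le_trans (le_of_eq ?_) (Nat.cast_le.2 this)
        congr
      push_cast at h'
      exact h'
    calc _ ≤ (2 * ∑ r ∈ range (n + 1), ((FixF r (Equiv.swap g h)).card : ℝ)) * 2 ^ (n ^ 2) :=
          mul_le_mul_of_nonneg_right h3 hP.le
      _ = 2 * ((∑ r ∈ range (n + 1), ((FixF r (Equiv.swap g h)).card : ℝ)) * 2 ^ (n ^ 2)) := by ring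
      _ ≤ 2 * mm n := mul_le_mul_of_nonneg_left (hswap g h hgh) (by norm_num)
  have e3 := h1 k hk
  have s1 : (∑ g : Fin n, ∑ r ∈ range (n + 1),
      (((BF n r).filter (fun B => ¬ indep B {g})).card : ℝ)) * 2 ^ (n ^ 2) ≤ n * (2 * mm n) := by
    rw [sum_mul]
    refine (sum_le_sum fun g _ => e1 g).trans ?_
    rw [sum_const, card_univ, Fintype.card_fin, nsmul_eq_mul]
  have s2 : (∑ g : Fin n, ∑ r ∈ range (n + 1),
      (((BF n r).filter (fun B => ∀ Y ∈ B, g ∈ Y)).card : ℝ)) * 2 ^ (n ^ 2) ≤ n * (2 * mm n) := by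
    rw [sum_mul]
    refine (sum_le_sum fun g _ => e2 g).trans ?_
    rw [sum_const, card_univ, Fintype.card_fin, nsmul_eq_mul]
  have hb := mul_le_mul_of_nonneg_right (bad_le (n := n) (k := k)) hP.le
  rw [add_mul, add_mul] at hb
  refine hb.trans ?_
  linarith

theorem num_fact : Tendsto (fun n : ℕ => (4 * (n : ℝ) + 1) * (n.factorial : ℝ) / 2 ^ (n ^ 2)) atTop
    (nhds 0) := by
  refine squeeze_zero' (Eventually.of_forall fun n => by positivity) ?_ F.num_22726
  filter_upwards [eventually_ge_atTop 6] with n hn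
  apply div_le_div_of_nonneg_right _ (by positivity)
  rw [sq]
  apply mul_le_mul_of_nonneg_right _ (by positivity)
  have h : ∀ m, 6 ≤ m → 4 * m + 1 ≤ m.factorial := by
    intro m hm
    induction m, hm using Nat.le_induction with
    | base => decide
    | succ m hm ih =>
      rw [Nat.factorial_succ]
      nlinarith
  exact_mod_cast h n hn

theorem conn_invariant_aux {n : ℕ} : (Isom n) = F.RR_22726 n := rfl

open Filter in
/-- **Main theorem.** -/
theorem main (c : ℝ) (hc : c < 1) (k : ℕ → ℕ) (hk : ∀ᶠ n : ℕ in atTop, (k n : ℝ) ≤ c * Real.logb 2 n) :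
    Tendsto (fun n : ℕ => (Nat.card {M : Lab n // KConn (k n) M.1} : ℝ) / (Nat.card (Lab n) : ℝ))
      atTop (nhds 1) ∧
    Tendsto (fun n : ℕ => (Nat.card {q : Unlab n // ∀ M : Lab n, q = Quot.mk _ M →
      KConn (k n) M.1} : ℝ) / (Nat.card (Unlab n) : ℝ)) atTop (nhds 1) := by
  classical
  have hlim : Tendsto (fun n : ℕ => 1 - (4 * (n : ℝ) + 1) * (n.factorial : ℝ) / 2 ^ (n ^ 2)) atTop
      (nhds 1) := by
    have := num_fact.const_sub 1
    rwa [sub_zero] at this
  have hfin : ∀ n, Finite (Lab n) := lab_finite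
  have hpos : ∀ n, 0 < Nat.card (Lab n) := by
    intro n
    haveI := hfin n
    haveI : Nonempty (Lab n) := ⟨⟨Matroid.loopyOn Set.univ, rfl⟩⟩
    exact Nat.card_pos
  have hposU : ∀ n, 0 < Nat.card (Unlab n) := fun n => F.quot_pos_22726 n
  have hle1 : ∀ n : ℕ, (1 : ℝ) ≤ (n.factorial : ℝ) := by
    intro n
    exact_mod_cast Nat.one_le_iff_ne_zero.2 (Nat.factorial_ne_zero n)
  constructor
  · refine tendsto_of_tendsto_of_tendsto_of_le_of_le' hlim tendsto_const_nhds ?_ ?_
    · filter_upwards [bad_small c hc, hk] with n hb hkn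
      have hb' := hb (k n) hkn
      haveI := hfin n
      haveI : Fintype (Lab n) := Fintype.ofFinite _
      have hsplit : Nat.card (Lab n) = Nat.card {M : Lab n // KConn (k n) M.1} +
          Nat.card {M : Lab n // ¬ KConn (k n) M.1} := card_split _
      have hmm := F.mm_le_22726 n
      have hN : (0 : ℝ) < Nat.card (Lab n) := by exact_mod_cast hpos n
      have hP : (0 : ℝ) < 2 ^ (n ^ 2) := by positivity
      rw [le_div_iff₀ hN]
      have hs' : (Nat.card (Lab n) : ℝ) = Nat.card {M : Lab n // KConn (k n) M.1} +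
          Nat.card {M : Lab n // ¬ KConn (k n) M.1} := by exact_mod_cast hsplit
      have h1 : (Nat.card {M : Lab n // ¬ KConn (k n) M.1} : ℝ) ≤
          (4 * (n : ℝ) + 1) * (n.factorial : ℝ) / 2 ^ (n ^ 2) * Nat.card (Lab n) := by
        rw [div_mul_eq_mul_div, le_div_iff₀ hP]
        calc _ ≤ (4 * (n : ℝ) + 1) * mm n := hb'
          _ ≤ (4 * (n : ℝ) + 1) * Nat.card (Lab n) := mul_le_mul_of_nonneg_left hmm (by positivity)
          _ = (4 * (n : ℝ) + 1) * 1 * Nat.card (Lab n) := by ring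
          _ ≤ _ := by
            apply mul_le_mul_of_nonneg_right _ hN.le
            exact mul_le_mul_of_nonneg_left (hle1 n) (by positivity)
      linarith
    · refine Eventually.of_forall fun n => ?_
      apply div_le_one_of_le₀ _ (Nat.cast_nonneg _)
      apply Nat.cast_le.2
      haveI := hfin n
      exact Nat.card_le_card_of_injective _ Subtype.val_injective
  · refine tendsto_of_tendsto_of_tendsto_of_le_of_le' hlim tendsto_const_nhds ?_ ?_
    · filter_upwards [bad_small c hc, hk] with n hb hkn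
      have hb' := hb (k n) hkn
      haveI := hfin n
      haveI : Fintype (Lab n) := Fintype.ofFinite _
      haveI : Finite (Unlab n) := Quot.finite _
      haveI : Fintype (Unlab n) := Fintype.ofFinite _
      set p : Unlab n → Prop := fun q => ∀ M : Lab n, q = Quot.mk _ M → KConn (k n) M.1 with hp
      have hsplit : Nat.card (Unlab n) = Nat.card {q : Unlab n // p q} +
          Nat.card {q : Unlab n // ¬ p q} := card_split _
      have hbadU : Nat.card {q : Unlab n // ¬ p q} ≤ Nat.card {M : Lab n // ¬ KConn (k n) M.1} := by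
        have hex : ∀ q : {q : Unlab n // ¬ p q}, ∃ M : {M : Lab n // ¬ KConn (k n) M.1},
            q.1 = Quot.mk _ M.1 := by
          rintro ⟨q, hq⟩
          simp only [hp] at hq
          push Not at hq
          obtain ⟨M, hM, hM'⟩ := hq
          exact ⟨⟨M, hM'⟩, hM⟩
        choose f hf using hex
        apply Nat.card_le_card_of_injective f
        intro q q' h
        apply Subtype.ext
        rw [hf q, hf q', h]
      have hc' : (Nat.card (Lab n) : ℝ) ≤ (Nat.card (Unlab n) : ℝ) * (n.factorial : ℝ) := by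
        rw [← Nat.cast_mul]
        exact Nat.cast_le.2 (F.card_le_22726 n)
      have hmm := F.mm_le_22726 n
      have hN : (0 : ℝ) < Nat.card (Unlab n) := by exact_mod_cast hposU n
      have hP : (0 : ℝ) < 2 ^ (n ^ 2) := by positivity
      rw [le_div_iff₀ hN]
      have hs' : (Nat.card (Unlab n) : ℝ) = Nat.card {q : Unlab n // p q} +
          Nat.card {q : Unlab n // ¬ p q} := by exact_mod_cast hsplit
      have hbadU' : (Nat.card {q : Unlab n // ¬ p q} : ℝ) ≤
          Nat.card {M : Lab n // ¬ KConn (k n) M.1} := by exact_mod_cast hbadU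
      have h1 : (Nat.card {M : Lab n // ¬ KConn (k n) M.1} : ℝ) ≤
          (4 * (n : ℝ) + 1) * (n.factorial : ℝ) / 2 ^ (n ^ 2) * Nat.card (Unlab n) := by
        rw [div_mul_eq_mul_div, le_div_iff₀ hP]
        calc _ ≤ (4 * (n : ℝ) + 1) * mm n := hb'
          _ ≤ (4 * (n : ℝ) + 1) * ((Nat.card (Unlab n) : ℝ) * (n.factorial : ℝ)) :=
            mul_le_mul_of_nonneg_left (hmm.trans hc') (by positivity)
          _ = _ := by ring
      linarith
    · refine Eventually.of_forall fun n => ?_
      apply div_le_one_of_le₀ _ (Nat.cast_nonneg _)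
      apply Nat.cast_le.2
      haveI := hfin n
      haveI : Finite (Unlab n) := Quot.finite _
      exact Nat.card_le_card_of_injective _ Subtype.val_injective

end Pool.Agent.W312.KC
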