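import Pool.Agent.Helper46.A.G1

set_option autoImplicit false

namespace Pool.Agent.W312.KC

open Finset Pool.Agent.Helper46.A

/-- all members of `B` meet some `X` in one of `j` consecutive sizes -/
def Bal {n : ℕ} (j : ℕ) (B : Fam n) : Prop :=
  ∃ X : Finset (Fin n), j ≤ X.card ∧ j ≤ Xᶜ.card ∧ ∃ a, ∀ Z ∈ B, a ≤ (Z ∩ X).card ∧
    (Z ∩ X).card + 1 ≤ a + j

theorem Bal.wlog {n r j : ℕ} (hj : 1 ≤ j) {B : Fam n} (hr : ∀ Z ∈ B, Z.card = r) (h : Bal j B) :
    ∃ X : Finset (Fin n), j ≤ X.card ∧ n ≤ 2 * Xᶜ.card ∧ ∃ a, ∀ Z ∈ B, a ≤ (Z ∩ X).card ∧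
    (Z ∩ X).card + 1 ≤ a + j := by
  obtain ⟨X, h1, h2, a, ha⟩ := h
  have hc : X.card + Xᶜ.card = n := by
    rw [card_add_card_compl, Fintype.card_fin]
  by_cases h3 : n ≤ 2 * Xᶜ.card
  · exact ⟨X, h1, h3, a, ha⟩
  · refine ⟨Xᶜ, h2, by rw [compl_compl]; omega, r - a - (j - 1), fun Z hZ => ?_⟩
    have h4 := ha Z hZ
    have h5 : (Z ∩ X).card + (Z ∩ Xᶜ).card = r := by
      rw [← hr Z hZ, ← card_union_of_disjoint, ← inter_union_distrib_left, union_compl, inter_univ]
      rw [disjoint_left]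
      intro x hx hx'
      rw [mem_inter] at hx hx'
      exact (mem_compl.1 hx'.2) hx.2
    omega

theorem ratio (β : ℝ) (hβ : 0 ≤ β) : ∀ j p m i : ℕ, p ≤ j → β * (m + j) ≤ (i : ℝ) - j →
    β * (m + j) ≤ (m : ℝ) - i → β ^ j * ((m + j).choose i : ℝ) ≤ (m.choose (i - p) : ℝ) := by
  intro j
  induction j with
  | zero =>
    intro p m i hp _ _
    obtain rfl : p = 0 := by omega
    simp
  | succ j ih =>
    intro p m i hp h1 h2
    push_cast at h1 h2
    have hmi : (i : ℝ) ≤ m := by
      have : 0 ≤ β * (m + (j + 1)) := by positivity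
      linarith
    have hmi' : i ≤ m := by exact_mod_cast hmi
    rcases Nat.lt_or_ge j p with hpj | hpj
    · -- p = j + 1
      obtain rfl : p = j + 1 := by omega
      have hi : (1 : ℝ) ≤ i := by
        have : 0 ≤ β * (m + (j + 1)) := by positivity
        have h' : (0 : ℝ) ≤ j := by positivity
        linarith
      have hi' : 1 ≤ i := by exact_mod_cast hi
      obtain ⟨k, rfl⟩ : ∃ k, i = k + 1 := ⟨i - 1, by omega⟩
      have e : (m + j + 1) * (m + j).choose k = (m + j + 1).choose (k + 1) * (k + 1) :=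
        Nat.add_one_mul_choose_eq (m + j) k
      have e' : ((m : ℝ) + j + 1) * ((m + j).choose k : ℝ) =
        ((m + j + 1).choose (k + 1) : ℝ) * (k + 1) := by exact_mod_cast e
      push_cast at h1 h2 hi
      have hstep : β * ((m + j + 1).choose (k + 1) : ℝ) ≤ ((m + j).choose k : ℝ) := by
        have hpos : (0 : ℝ) < m + j + 1 := by positivity
        have h3 : β * ((m : ℝ) + j + 1) ≤ k + 1 := by
          have : (0 : ℝ) ≤ j := by positivity
          linarith
        have h4 : β * ((m : ℝ) + j + 1) * ((m + j + 1).choose (k + 1) : ℝ) ≤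
            ((m : ℝ) + j + 1) * ((m + j).choose k : ℝ) := by
          rw [e', mul_comm ((m + j + 1).choose (k + 1) : ℝ)]
          exact mul_le_mul_of_nonneg_right h3 (by positivity)
        have h5 : ((m : ℝ) + j + 1) * (β * ((m + j + 1).choose (k + 1) : ℝ)) ≤
            ((m : ℝ) + j + 1) * ((m + j).choose k : ℝ) := by linarith
        exact le_of_mul_le_mul_left h5 hpos
      have hih := ih j m k le_rfl (by nlinarith) (by nlinarith)
      have : k + 1 - (j + 1) = k - j := by omega
      rw [this, pow_succ, mul_assoc]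
      exact (mul_le_mul_of_nonneg_left hstep (by positivity)).trans hih
    · have e : (m + j).choose i * (m + j + 1) = (m + j + 1).choose i * (m + j + 1 - i) :=
        Nat.choose_mul_succ_eq (m + j) i
      have e' : ((m + j).choose i : ℝ) * ((m : ℝ) + j + 1) =
        ((m + j + 1).choose i : ℝ) * ((m : ℝ) + j + 1 - i) := by
        have h3 : ((m + j + 1 - i : ℕ) : ℝ) = (m : ℝ) + j + 1 - i := by
          rw [Nat.cast_sub (by omega)]; push_cast; ring
        rw [← h3]
        exact_mod_cast e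
      have hstep : β * ((m + j + 1).choose i : ℝ) ≤ ((m + j).choose i : ℝ) := by
        have hpos : (0 : ℝ) < m + j + 1 := by positivity
        have h3 : β * ((m : ℝ) + j + 1) ≤ (m : ℝ) + j + 1 - i := by
          have : (0 : ℝ) ≤ j := by positivity
          linarith
        have h4 : β * ((m : ℝ) + j + 1) * ((m + j + 1).choose i : ℝ) ≤
            ((m + j).choose i : ℝ) * ((m : ℝ) + j + 1) := by
          rw [e', mul_comm ((m + j + 1).choose i : ℝ)]
          exact mul_le_mul_of_nonneg_right h3 (by positivity)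
        have h5 : ((m : ℝ) + j + 1) * (β * ((m + j + 1).choose i : ℝ)) ≤
            ((m : ℝ) + j + 1) * ((m + j).choose i : ℝ) := by linarith
        exact le_of_mul_le_mul_left h5 hpos
      have hih := ih p m i hpj (by nlinarith) (by nlinarith)
      rw [pow_succ, mul_assoc]
      exact (mul_le_mul_of_nonneg_left hstep (by positivity)).trans hih

/-- tail estimate -/
theorem tail {n : ℕ} (S : Finset (Fin n)) (x γ : ℝ) (hx : 0 < x) (hx1 : x ≤ 1) :
    (((univ : Finset (Finset (Fin n))).filter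
      (fun Z => ((Z ∩ S).card : ℝ) < γ * S.card)).card : ℝ) * x ^ (γ * S.card) ≤
      (1 + x) ^ S.card * 2 ^ (n - S.card) := by
  classical
  have h1 : ∑ Z ∈ (univ : Finset (Finset (Fin n))), x ^ (Z ∩ S).card =
      (1 + x) ^ S.card * 2 ^ (n - S.card) := by
    have h2 := Finset.prod_one_add (s := (univ : Finset (Fin n)))
      (f := fun z => if z ∈ S then x else (1 : ℝ))
    rw [powerset_univ] at h2
    have h3 : ∀ Z : Finset (Fin n), ∏ z ∈ Z, (if z ∈ S then x else (1 : ℝ)) = x ^ (Z ∩ S).card := by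
      intro Z
      rw [prod_ite, prod_const, prod_const_one, mul_one, filter_mem_eq_inter]
    rw [Finset.sum_congr rfl (fun Z _ => (h3 Z).symm), ← h2]
    have h4 : ∀ z : Fin n, (1 + if z ∈ S then x else (1 : ℝ)) = if z ∈ S then 1 + x else 2 := by
      intro z
      split_ifs <;> norm_num
    rw [Finset.prod_congr rfl (fun z _ => h4 z), prod_ite, prod_const, prod_const]
    congr 2
    · congr 1
      ext z; simp
    · have : (univ : Finset (Fin n)).filter (fun z => z ∉ S) = Sᶜ := by ext z; simp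
      rw [this, card_compl, Fintype.card_fin]
  rw [← h1, ← nsmul_eq_mul, ← sum_const]
  calc ∑ Z ∈ (univ : Finset (Finset (Fin n))).filter (fun Z => ((Z ∩ S).card : ℝ) < γ * S.card),
        x ^ (γ * S.card)
      ≤ ∑ Z ∈ (univ : Finset (Finset (Fin n))).filter
          (fun Z => ((Z ∩ S).card : ℝ) < γ * S.card), x ^ (Z ∩ S).card := by
        apply sum_le_sum
        intro Z hZ
        rw [mem_filter] at hZ
        rw [← Real.rpow_natCast]
        exact Real.rpow_le_rpow_of_exponent_ge hx hx1 hZ.2.le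
    _ ≤ _ := sum_le_sum_of_subset_of_nonneg (filter_subset _ _) (fun _ _ _ => by positivity)

theorem tail' {n : ℕ} (S : Finset (Fin n)) (x γ : ℝ) (hx : 0 < x) (hx1 : x ≤ 1) :
    (((univ : Finset (Finset (Fin n))).filter
      (fun Z => (S.card : ℝ) - (Z ∩ S).card < γ * S.card)).card : ℝ) * x ^ (γ * S.card) ≤
      (1 + x) ^ S.card * 2 ^ (n - S.card) := by
  classical
  have h := tail S x γ hx hx1
  have e : ((univ : Finset (Finset (Fin n))).filter
      (fun Z => (S.card : ℝ) - (Z ∩ S).card < γ * S.card)).card ≤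
      ((univ : Finset (Finset (Fin n))).filter
      (fun Z => ((Z ∩ S).card : ℝ) < γ * S.card)).card := by
    refine card_le_card_of_injOn (fun Z => Zᶜ) ?_ (fun Z _ Z' _ h => compl_injective h)
    intro Z hZ
    rw [mem_coe, mem_filter] at hZ ⊢
    refine ⟨mem_univ _, ?_⟩
    have h5 : (Z ∩ S).card + (Zᶜ ∩ S).card = S.card := by
      rw [← card_union_of_disjoint, ← union_inter_distrib_right, union_compl, univ_inter]
      rw [disjoint_left]
      intro x hx hx'
      rw [mem_inter] at hx hx'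
      exact (mem_compl.1 hx'.1) hx.1
    have h6 : ((Z ∩ S).card : ℝ) + (Zᶜ ∩ S).card = S.card := by exact_mod_cast h5
    linarith [hZ.2]
  refine le_trans ?_ h
  exact mul_le_mul_of_nonneg_right (by exact_mod_cast e) (by positivity)

/-- the local count -/
theorem local_count {n r j : ℕ} (B : Fam n) (X X' : Finset (Fin n)) (hX' : X' ⊆ X)
    (hj : X'.card = j) (a : ℕ)
    (ha : ∀ Z ∈ B, a ≤ (Z ∩ X).card ∧ (Z ∩ X).card + 1 ≤ a + j)
    (W : Finset (Fin n)) (hW : W ⊆ X \ X') (hWr : W.card + j ≤ r) :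
    ∃ p ≤ j, (Xᶜ.card).choose (r - W.card - p) ≤
      ((powersetCard r (univ : Finset (Fin n))).filter
        (fun Z => Z ∩ (X \ X') = W ∧ Z ∉ B)).card := by
  classical
  obtain ⟨p, hp, hpa⟩ : ∃ p ≤ j, ¬ (a ≤ W.card + p ∧ W.card + p + 1 ≤ a + j) := by
    by_cases h : a ≤ W.card
    · exact ⟨j, le_rfl, by omega⟩
    · exact ⟨0, by omega, by omega⟩
  refine ⟨p, hp, ?_⟩
  obtain ⟨P, hP, hPc⟩ := exists_subset_card_eq (s := X') (n := p) (by omega)
  rw [← card_powersetCard]
  have hWX : W ⊆ X := hW.trans sdiff_subset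
  have hPX : P ⊆ X := hP.trans hX'
  have hWP : Disjoint W P := by
    rw [disjoint_left]
    intro x hx hx'
    exact (mem_sdiff.1 (hW hx)).2 (hP hx')
  refine card_le_card_of_injOn (fun V => W ∪ P ∪ V) ?_ ?_
  · intro V hV
    rw [mem_coe, mem_powersetCard] at hV
    have hV' : Disjoint (W ∪ P) V := by
      rw [disjoint_left]
      intro x hx hx'
      exact (mem_compl.1 (hV.1 hx')) ((union_subset hWX hPX) hx)
    have hint : (W ∪ P ∪ V) ∩ X = W ∪ P := by
      ext x
      rw [mem_inter, mem_union]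
      constructor
      · rintro ⟨h | h, h'⟩
        · exact h
        · exact absurd h' (mem_compl.1 (hV.1 h))
      · intro h
        exact ⟨Or.inl h, (union_subset hWX hPX) h⟩
    rw [mem_coe, mem_filter, mem_powersetCard]
    refine ⟨⟨subset_univ _, ?_⟩, ?_, ?_⟩
    · rw [card_union_of_disjoint hV', card_union_of_disjoint hWP, hV.2, hPc]
      omega
    · ext x
      rw [mem_inter, mem_sdiff, mem_union, mem_union]
      constructor
      · rintro ⟨(h | h) | h, h1, h2⟩
        · exact h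
        · exact absurd (hP h) h2
        · exact absurd h1 (mem_compl.1 (hV.1 h))
      · intro h
        exact ⟨Or.inl (Or.inl h), mem_sdiff.1 (hW h)⟩
    · intro hB
      have := ha _ hB
      rw [hint, card_union_of_disjoint hWP, hPc] at this
      exact hpa this
  · intro V hV V' hV' heq
    rw [mem_coe, mem_powersetCard] at hV hV'
    have hh : ∀ U : Finset (Fin n), U ⊆ Xᶜ → U = (W ∪ P ∪ U) ∩ Xᶜ := by
      intro U hU
      ext x
      rw [mem_inter, mem_union]
      constructor
      · intro h; exact ⟨Or.inr h, hU h⟩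
      · rintro ⟨h | h, h'⟩
        · exact absurd ((union_subset hWX hPX) h) (mem_compl.1 h')
        · exact h
    have heq' : W ∪ P ∪ V = W ∪ P ∪ V' := heq
    rw [hh V hV.1, hh V' hV'.1, heq']

theorem fiber_card {n r : ℕ} (S : Finset (Fin n)) (W : Finset (Fin n)) (hW : W ⊆ Sᶜ) (hWr : W.card ≤ r) :
    ((powersetCard r (univ : Finset (Fin n))).filter (fun Z => Z ∩ Sᶜ = W)).card ≤
      S.card.choose (r - W.card) := by
  classical
  rw [← card_powersetCard]
  refine card_le_card_of_injOn (fun Z => Z ∩ S) ?_ ?_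
  · intro Z hZ
    rw [mem_coe, mem_filter, mem_powersetCard] at hZ
    rw [mem_coe, mem_powersetCard]
    refine ⟨inter_subset_right, ?_⟩
    have h5 : (Z ∩ S).card + (Z ∩ Sᶜ).card = Z.card := by
      rw [← card_union_of_disjoint, ← inter_union_distrib_left, union_compl, inter_univ]
      rw [disjoint_left]
      intro x hx hx'
      rw [mem_inter] at hx hx'
      exact (mem_compl.1 hx'.2) hx.2
    rw [hZ.2, hZ.1.2] at h5
    show (Z ∩ S).card = r - W.card
    omega
  · intro Z hZ Z' hZ' heq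
    rw [mem_coe, mem_filter] at hZ hZ'
    have heq' : Z ∩ S = Z' ∩ S := heq
    have : ∀ U : Finset (Fin n), U = (U ∩ S) ∪ (U ∩ Sᶜ) := by
      intro U
      rw [← inter_union_distrib_left, union_compl, inter_univ]
    rw [this Z, this Z', heq', hZ.2, hZ'.2]

/-- many nonbases -/
theorem many {n r j : ℕ} (B : Fam n) (X X' : Finset (Fin n)) (hX' : X' ⊆ X)
    (hj : X'.card = j) (a : ℕ)
    (ha : ∀ Z ∈ B, a ≤ (Z ∩ X).card ∧ (Z ∩ X).card + 1 ≤ a + j) (β : ℝ) (hβ : 0 ≤ β) :
    β ^ j * (((powersetCard r (univ : Finset (Fin n))).filter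
      (fun Z => β * ((Xᶜ.card : ℝ) + j) ≤ ((Z ∩ (X \ X')ᶜ).card : ℝ) - j ∧
        β * ((Xᶜ.card : ℝ) + j) ≤ (Xᶜ.card : ℝ) - (Z ∩ (X \ X')ᶜ).card)).card : ℝ) ≤
    ((((powersetCard r (univ : Finset (Fin n))).filter (fun Z => Z ∉ B)).card : ℕ) : ℝ) := by
  classical
  obtain ⟨S, hS⟩ : ∃ S, S = (X \ X')ᶜ := ⟨_, rfl⟩
  obtain ⟨m, hm⟩ : ∃ m, m = Xᶜ.card := ⟨_, rfl⟩
  rw [← hS, ← hm]
  have hSc : S.card = m + j := by
    rw [hS, card_compl, Fintype.card_fin, card_sdiff_of_subset hX', hj, hm, card_compl,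
      Fintype.card_fin]
    have h1 := card_le_univ X
    rw [Fintype.card_fin] at h1
    have h2 := card_le_card hX'
    omega
  have hSS : Sᶜ = X \ X' := by rw [hS, compl_compl]
  set G := (powersetCard r (univ : Finset (Fin n))).filter
      (fun Z => β * ((m : ℝ) + j) ≤ ((Z ∩ S).card : ℝ) - j ∧
        β * ((m : ℝ) + j) ≤ (m : ℝ) - (Z ∩ S).card) with hG
  set N := (powersetCard r (univ : Finset (Fin n))).filter (fun Z => Z ∉ B) with hN
  have hsplit : ∀ Z ∈ powersetCard r (univ : Finset (Fin n)),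
      (Z ∩ S).card + (Z ∩ Sᶜ).card = r := by
    intro Z hZ
    rw [mem_powersetCard] at hZ
    rw [← hZ.2, ← card_union_of_disjoint, ← inter_union_distrib_left, union_compl, inter_univ]
    rw [disjoint_left]
    intro x hx hx'
    rw [mem_inter] at hx hx'
    exact (mem_compl.1 hx'.2) hx.2
  have h1 : G.card = ∑ W ∈ (Sᶜ).powerset, (G.filter (fun Z => Z ∩ Sᶜ = W)).card := by
    apply card_eq_sum_card_fiberwise
    intro Z _
    exact mem_powerset.2 inter_subset_right
  have h2 : N.card = ∑ W ∈ (Sᶜ).powerset, (N.filter (fun Z => Z ∩ Sᶜ = W)).card := by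
    apply card_eq_sum_card_fiberwise
    intro Z _
    exact mem_powerset.2 inter_subset_right
  rw [h1, h2]
  push_cast
  rw [mul_sum]
  apply sum_le_sum
  intro W hW
  rw [mem_powerset] at hW
  by_cases hne : (G.filter (fun Z => Z ∩ Sᶜ = W)).Nonempty
  · obtain ⟨Z, hZ⟩ := hne
    rw [mem_filter, hG, mem_filter] at hZ
    obtain ⟨⟨hZ, hb1, hb2⟩, hZW⟩ := hZ
    have hs := hsplit Z hZ
    rw [hZW] at hs
    have hi : (Z ∩ S).card = r - W.card := by omega
    rw [hi] at hb1 hb2
    have hjr : (j : ℝ) ≤ ((r - W.card : ℕ) : ℝ) := by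
      have : 0 ≤ β * ((m : ℝ) + j) := by positivity
      linarith
    have hjr' : j ≤ r - W.card := by exact_mod_cast hjr
    obtain ⟨p, hp, hcount⟩ := local_count (r := r) B X X' hX' hj a ha W (hSS ▸ hW) (by omega)
    have hrat := ratio β hβ j p m (r - W.card) hp hb1 hb2
    have hf := fiber_card (r := r) S W hW (by omega)
    rw [hSc] at hf
    rw [← hm] at hcount
    have hg1 : ((G.filter (fun Z => Z ∩ Sᶜ = W)).card : ℝ) ≤ ((m + j).choose (r - W.card) : ℝ) := by
      refine le_trans ?_ (Nat.cast_le.2 hf)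
      apply Nat.cast_le.2
      apply card_le_card
      intro Y hY
      rw [mem_filter, hG, mem_filter] at hY
      exact mem_filter.2 ⟨hY.1.1, hY.2⟩
    have hg2 : ((m.choose (r - W.card - p) : ℕ) : ℝ) ≤
        ((N.filter (fun Z => Z ∩ Sᶜ = W)).card : ℝ) := by
      refine le_trans (Nat.cast_le.2 hcount) ?_
      apply Nat.cast_le.2
      apply card_le_card
      intro Y hY
      rw [mem_filter] at hY
      rw [mem_filter, hN, mem_filter, hSS]
      exact ⟨⟨hY.1, hY.2.2⟩, hY.2.1⟩
    calc β ^ j * ((G.filter (fun Z => Z ∩ Sᶜ = W)).card : ℝ)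
        ≤ β ^ j * ((m + j).choose (r - W.card) : ℝ) :=
          mul_le_mul_of_nonneg_left hg1 (by positivity)
      _ ≤ _ := hrat
      _ ≤ _ := hg2
  · rw [not_nonempty_iff_eq_empty] at hne
    rw [hne, card_empty]
    simp

end Pool.Agent.W312.KC
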